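import Pool.Agent.Lib.MP_c60e08_gt.PdeSpec1

/-!
# Extension of polar solutions past a time at which the bounds hold
-/

set_option autoImplicit false

namespace Pool.Agent.Lib.MP_c60e08_gt.Pde

open Real Set Pool.Agent.Lib.MP_c60e08_gt.Lm

namespace Ext

/-- `uu` along a `QSol` is continuous -/
theorem cont_uu {a b : ℝ → ℝ → ℝ → ℝ} {T : ℝ} {w : ℕ → ℝ → ℝ → ℝ} (hw : QSol a b T w) :
    ContinuousOn (fun z : ℝ × ℝ => uu z.2 (w 0 z.1 z.2)) (Icc 0 T ×ˢ univ) := by
  have h0 := hw.cont 0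
  unfold uu
  have c : ContinuousOn (fun z : ℝ × ℝ => cos z.2) (Icc 0 T ×ˢ univ) :=
    (continuous_cos.comp continuous_snd).continuousOn
  exact ((continuous_exp.comp_continuousOn (continuousOn_const.mul h0)).sub
    ((continuousOn_const.mul (continuous_exp.comp_continuousOn h0)).mul c)).add continuousOn_const

/-- `uu` along a `QSol` is periodic -/
theorem per_uu {a b : ℝ → ℝ → ℝ → ℝ} {T : ℝ} {w : ℕ → ℝ → ℝ → ℝ} (hw : QSol a b T w) :
    ∀ t ∈ Icc 0 T, ∀ x, uu (x + 2 * π) (w 0 t (x + 2 * π)) = uu x (w 0 t x) := by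
  intro t ht x
  unfold uu
  rw [hw.per t ht x, cos_add_two_pi]

end Ext

theorem ext : Par2Stmt → PerStmt → UnifStmt → RegStmt → QUniqStmt → QCutStmt → QGlueStmt →
    PolQStmt → QPolStmt → QEvenStmt → ExtStmt := by
  intro hPar hPer hUnif hReg hUniq hCut hGlue hPolQ hQPol hEven
  intro T M y hT hy hb hu
  -- the constants
  have h0T : (0 : ℝ) ∈ Ico 0 T := ⟨le_rfl, hT⟩
  have hM : 0 < M := by
    have h1 := hu 0 h0T 0
    have h2 := hy.pos 0 h0T 0
    by_contra hM
    push Not at hM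
    nlinarith [mul_nonneg (neg_nonneg.2 hM) h2.le]
  set η : ℝ := 1 / (2 * M) with hη
  have hη0 : 0 < η := by positivity
  have huη : ∀ t ∈ Ico 0 T, ∀ x, 2 * η ≤ uu x (y 0 t x) := by
    intro t ht x
    have h1 := hu t ht x
    have h2 : 2 * η = 1 / M := by rw [hη]; field_simp
    rw [h2, div_le_iff₀ hM]
    linarith
  obtain ⟨hcoef, hphi, hsym⟩ := hReg η hη0
  obtain ⟨τ, hτ, K, hpar⟩ := hPar (aE η) (bE η) hcoef M
  set s : ℝ := max (T - τ / 2) 0 with hs
  have hs0 : 0 ≤ s := le_max_right _ _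
  have hsT : s < T := max_lt (by linarith) hT
  have hsτ : T < s + τ := by
    have : T - τ / 2 ≤ s := le_max_left _ _
    linarith
  have hsI : s ∈ Ico 0 T := ⟨hs0, hsT⟩
  -- the data at time `s`
  obtain ⟨pper, psm, pit, _⟩ := hPer.1 (fun m => y m s) (fun m x => hy.dx m s hsI x)
  obtain ⟨z, hz, hz0, _, _⟩ := hpar (y 0 s) psm (fun x => hy.per s hsI x)
    (fun j hj x => by rw [pit j]; exact hb j hj s hsI x)
  -- `y` is a solution on `[0,t1]`
  have hyQ : ∀ t1, t1 < T → QSol (aE η) (bE η) t1 y := by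
    intro t1 h1
    refine hPolQ.2 T t1 η y hy h1 hη0 fun t ht x => ?_
    have := huη t ⟨ht.1, ht.2.trans_lt h1⟩ x
    linarith
  -- agreement
  have hagree : ∀ t, s ≤ t → t < T → ∀ m x, z m (t - s) x = y m t x := by
    intro t hst htT m x
    have q1 := hyQ t htT
    have q2 := (hCut (aE η) (bE η) t y q1).2 s ⟨hs0, hst⟩
    have q3 := (hCut (aE η) (bE η) τ z hz).1 (t - s) (by linarith)
    have q4 := hUniq (aE η) (bE η) hcoef (t - s) (fun m t x => y m (s + t) x) z q2 q3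
      (fun x => by
        simp only [add_zero]
        exact (hz0 x).symm) (t - s) ⟨by linarith, le_rfl⟩ m x
    simp only [add_sub_cancel] at q4
    exact q4.symm
  -- gluing
  have hw : QSol (aE η) (bE η) (s + τ) (glue s y z) :=
    hGlue (aE η) (bE η) s τ y z hs0 hτ.le (hyQ s hsT) hz hz0
  have hwy : ∀ t, 0 ≤ t → t < T → ∀ x, glue s y z 0 t x = y 0 t x := by
    intro t _ htT x
    unfold glue
    split_ifs with h
    · rfl
    · exact hagree t (not_le.1 h).le htT 0 x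
  obtain ⟨δ, hδ, hδ'⟩ := (hUnif (s + τ) (fun t x => uu x (glue s y z 0 t x))
    (Ext.cont_uu hw) (Ext.per_uu hw)).2.1 η hη0
  set T' : ℝ := min (s + τ) (T + δ / 2) with hT'
  have hTT' : T < T' := lt_min hsτ (by linarith)
  have hlow : ∀ t ∈ Icc 0 T', ∀ x, η ≤ uu x (glue s y z 0 t x) := by
    intro t ht x
    rcases lt_or_ge t T with h | h
    · rw [hwy t ht.1 h x]
      have := huη t ⟨ht.1, h⟩ x
      linarith
    · set t' : ℝ := max 0 (T - δ / 2) with ht'
      have h1 : 0 ≤ t' := le_max_left _ _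
      have h2 : t' < T := max_lt hT (by linarith)
      have h3 : T - δ / 2 ≤ t' := le_max_right _ _
      have h4 : t ≤ T + δ / 2 := ht.2.trans (min_le_right _ _)
      have h5 : t ≤ s + τ := ht.2.trans (min_le_left _ _)
      have h6 := hδ' t' ⟨h1, by linarith⟩ t ⟨ht.1, h5⟩ (by
        rw [abs_le]
        constructor <;> linarith) x
      rw [abs_le] at h6
      have h7 := huη t' ⟨h1, h2⟩ x
      rw [hwy t' h1 h2 x] at h6
      linarith [h6.1]
  have hwT' : QSol (aE η) (bE η) T' (glue s y z) :=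
    (hCut (aE η) (bE η) (s + τ) _ hw).1 T' (min_le_left _ _)
  have hev := hEven T' η (glue s y z) hη0 hwT' (fun x => by
    rw [hwy 0 le_rfl hT, hwy 0 le_rfl hT]
    exact hy.even 0 h0T x)
  exact ⟨T', hTT', glue s y z, hQPol T' η _ hη0 hwT' hlow hev, fun p => hwy 0 le_rfl hT p⟩

end Pool.Agent.Lib.MP_c60e08_gt.Pde
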