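import Pool.Agent.Lib.MP_c60e08_gt.PdeSpec2

/-!
Module FB: boundary values of the flow of a polar graph solution.
-/

namespace Pool.Agent.Lib.MP_c60e08_gt.Pde

open Real Set Pool.Agent.Lib.MP_c60e08_gt.Lm

namespace FB

/-- Derivatives of functions with a reflection symmetry. -/
theorem refl_deriv {F F' : ℝ → ℝ} (h : ∀ x, HasDerivAt F (F' x) x) (c σ : ℝ)
    (hs : ∀ p, F (c - p) = σ * F p) (p : ℝ) : F' (c - p) = -σ * F' p := by
  have h1 : HasDerivAt (fun x => F (c - x)) (F' (c - p) * (-1)) p := by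
    have h2 : HasDerivAt (fun x : ℝ => c - x) (-1) p := by
      simpa using (hasDerivAt_id p).const_sub c
    exact (h (c - p)).comp p h2
  have h3 : HasDerivAt (fun x => F (c - x)) (σ * F' p) p := by
    have h4 : (fun x => F (c - x)) = fun x => σ * F x := funext hs
    rw [h4]
    exact (h p).const_mul σ
  have h5 := h1.unique h3
  linarith

theorem deriv_zero {F : ℝ → ℝ} (c q : ℝ) (hs : ∀ p, F (c - p) = F p) (hq : c - q = q) :
    deriv F q = 0 := by
  have h1 : deriv (fun x => F (c - x)) q = - deriv F (c - q) := deriv_comp_const_sub F c q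
  have h2 : (fun x => F (c - x)) = F := funext hs
  rw [h2, hq] at h1
  linarith

end FB

/-- FB. -/
theorem fb : FBStmt := by
  intro T y hy hneg t ht
  have hev : ∀ p, y 0 t (0 - p) = 1 * y 0 t p := by
    intro p
    rw [zero_sub, hy.even t ht, one_mul]
  have hsy : ∀ p, y 0 t (2 * π - p) = 1 * y 0 t p := by
    intro p
    rw [one_mul, show 2 * π - p = -p + 2 * π by ring, hy.per t ht, hy.even t ht]
  -- the reflection with centre `c / 2`
  have key : ∀ c : ℝ, (∀ p, y 0 t (c - p) = 1 * y 0 t p) → (∀ p, cos (c - p) = cos p) →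
      (∀ p, y 1 t (c - p) = - y 1 t p) ∧ (∀ p, pv y t (c - p) = pv y t p) := by
    intro c hc hcos
    have h1 : ∀ p, y 1 t (c - p) = -1 * y 1 t p := FB.refl_deriv (hy.dx 0 t ht) c 1 hc
    have h2 : ∀ p, y 2 t (c - p) = - -1 * y 2 t p := FB.refl_deriv (hy.dx 1 t ht) c (-1) h1
    refine ⟨fun p => by rw [h1]; ring, fun p => ?_⟩
    have e0 : y 0 t (c - p) = y 0 t p := by rw [hc, one_mul]
    have e1 : y 1 t (c - p) = - y 1 t p := by rw [h1]; ring
    have e2 : y 2 t (c - p) = y 2 t p := by rw [h2]; ring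
    have e3 : uu (c - p) (y 0 t p) = uu p (y 0 t p) := by
      simp only [uu, hcos]
    simp only [pv, pg, e0, e1, e2, e3, neg_sq]
  obtain ⟨k1, k2⟩ := key 0 hev (fun p => by rw [zero_sub, cos_neg])
  obtain ⟨m1, m2⟩ := key (2 * π) hsy (fun p => Real.cos_two_pi_sub p)
  have y10 : y 1 t 0 = 0 := by
    have := k1 0
    rw [sub_zero] at this
    linarith
  have y1p : y 1 t π = 0 := by
    have := m1 π
    rw [show 2 * π - π = π by ring] at this
    linarith
  have d0 : deriv (pv y t) 0 = 0 := FB.deriv_zero 0 0 k2 (by ring)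
  have dp : deriv (pv y t) π = 0 := FB.deriv_zero (2 * π) π m2 (by ring)
  refine ⟨?_, ?_, ?_, ?_, ?_, ?_, ?_, ?_, ?_, ?_, ?_⟩
  · simp [flowOf]
  · simp [flowOf, y10]
  · simp [flowOf, pD, d0]
  · simp [flowOf, y10]
  · simp [flowOf]
  · simp [flowOf, y1p]
  · simp [flowOf, pD, dp]
  · simp [flowOf, y1p]
  · intro p hp
    simp only [flowOf]
    exact mul_pos (exp_pos _) (sin_pos_of_pos_of_lt_pi hp.1 hp.2)
  · simp only [flowOf, cos_zero, mul_one]
    have := hneg t ht
    have h1 : exp (y 0 t 0) < 1 := by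
      rw [← Real.exp_zero]
      exact Real.exp_lt_exp.2 this
    linarith
  · simp only [flowOf, cos_pi]
    have := exp_pos (y 0 t π)
    linarith

end Pool.Agent.Lib.MP_c60e08_gt.Pde
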