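import Pool.Agent.Lib.MP_c60e08_gt.PdeSpec2

/-!
# MP_c60e08_gt, module Pde/FT1: first time derivatives
-/

namespace Pool.Agent.Lib.MP_c60e08_gt.Pde

open Real Set Pool.Agent.Lib.MP_c60e08_gt.Lm

namespace FT1

theorem u_eq (y : ℕ → ℝ → ℝ → ℝ) (t p : ℝ) : (flowOf y).u t p = uu p (y 0 t p) := by
  have h : (flowOf y).u t p
      = (exp (y 0 t p) * sin p) ^ 2 + (1 - exp (y 0 t p) * cos p) ^ 2 := rfl
  rw [h]
  unfold uu
  have h2 : exp (2 * y 0 t p) = exp (y 0 t p) ^ 2 := by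
    rw [← exp_nat_mul]
    norm_num
  rw [h2]
  have h3 := sin_sq_add_cos_sq p
  linear_combination exp (y 0 t p) ^ 2 * h3

theorem fS_pos {u : ℝ} (hu : 0 < u) : 0 < fS u := by
  unfold fS
  positivity

/-- the algebraic relations at a point -/
theorem vals (y : ℕ → ℝ → ℝ → ℝ) (t p : ℝ) (hu : 0 < uu p (y 0 t p)) :
    ∃ f E s : ℝ, 0 < f ∧ 0 < E ∧ 0 < s ∧ E = exp (y 0 t p) ∧ s = √(1 + (y 1 t p) ^ 2) ∧
      s * s = 1 + (y 1 t p) ^ 2 ∧ f = fS (uu p (y 0 t p)) ∧ (flowOf y).g t p = E * s ∧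
      (flowOf y).v t p = f * (flowOf y).kap t p ∧
      y 2 t p = s * s - s * s * (E * s * (flowOf y).kap t p) := by
  refine ⟨fS (uu p (y 0 t p)), exp (y 0 t p), √(1 + (y 1 t p) ^ 2), fS_pos hu, exp_pos _,
    by positivity, rfl, rfl, mul_self_sqrt (by positivity), rfl, rfl, ?_, ?_⟩
  · unfold FlowData.kap FlowData.f
    rw [u_eq]
    have := (fS_pos hu).ne'
    field_simp
  · unfold FlowData.kap FlowData.f
    rw [u_eq]
    have hv : (flowOf y).v t p = fS (uu p (y 0 t p)) * (1 - y 2 t p / (1 + (y 1 t p) ^ 2)) /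
      (exp (y 0 t p) * √(1 + (y 1 t p) ^ 2)) := rfl
    rw [hv]
    have h1 := (fS_pos hu).ne'
    have h2 : 0 < 1 + (y 1 t p) ^ 2 := by positivity
    have h3 : √(1 + (y 1 t p) ^ 2) * √(1 + (y 1 t p) ^ 2) = 1 + (y 1 t p) ^ 2 :=
      mul_self_sqrt h2.le
    have h4 : √(1 + (y 1 t p) ^ 2) ≠ 0 := by positivity
    have h5 := (exp_pos (y 0 t p)).ne'
    have h6 := h2.ne'
    rw [h3]
    field_simp
    ring

/-- the angle -/
theorem trig (a1 p s : ℝ) (hs : s = √(1 + a1 ^ 2)) :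
    sin (p - arctan a1) = (sin p - a1 * cos p) / s ∧
      cos (p - arctan a1) = (cos p + a1 * sin p) / s := by
  rw [sin_sub, cos_sub, cos_arctan, sin_arctan, ← hs]
  constructor <;> ring

end FT1

theorem ft1 : XsAlgStmt → XsCompStmt → SwapStmt → PolSmStmt → FlowXsStmt → FlowPStmt →
    FT1Stmt := by
  intro hXA hXC hSw hPS hFX hFP T y hy
  have hsub : Ioo 0 T ⊆ Ico 0 T := Ioo_subset_Ico_self
  have hxs := hFX (Ioo 0 T) 0 T y hy hsub (fun k m => (hPS T y hy).1 0 k m)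
  set R : ℝ → ℝ → ℝ := fun t p =>
    -((flowOf y).v t p * ((flowOf y).g t p * exp (-(2 * y 0 t p)))) with hR
  have hRxs : XS (Ioo 0 T) 0 1 R := by
    obtain ⟨-, -, -, -, -, -, hmul, hneg⟩ := hXA (Ioo 0 T) 0
    obtain ⟨-, -, -, hg, -, hv, -⟩ := hxs 1
    refine hneg 1 _ (hmul 1 _ _ hv (hmul 1 _ _ hg ?_))
    exact hXC.2 (Ioo 0 T) 0 1 univ (fun r => exp (-(2 * r))) (y 0) isOpen_univ
      (ContDiff.contDiffOn (by fun_prop)) ((hPS T y hy).1 0 1 0) (fun _ _ _ => mem_univ _)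
  have hdt : ∀ t ∈ Ioo 0 T, ∀ x, HasDerivAt (fun s => y 0 s x) (R t x) t := by
    intro t ht x
    have h1 := hy.dt t ht x
    obtain ⟨f, E, s, hf, hE, hs, hEe, hse, hss, hfe, hg, hv, ha2⟩ :=
      FT1.vals y t x (hy.pos t (hsub ht) x)
    convert h1 using 1
    simp only [hR]
    rw [hg, hv, ← hfe, ha2, ← hss]
    field_simp
    ring
  have hsw := hSw T (y 0) (y 1) R (fun t x => deriv (R t) x) hRxs.1.continuousOn
    hRxs.2.2.continuousOn (fun t ht x => hy.dx 0 t (hsub ht) x) hdt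
    (fun t ht x => (hRxs.2.1 t ht x).hasDerivAt)
  intro t ht p
  obtain ⟨f, E, s, hf, hE, hs, hEe, hse, hss, hfe, hg, hv, ha2⟩ :=
    FT1.vals y t p (hy.pos t (hsub ht) p)
  obtain ⟨-, -, -, -, -, hvp, -, -⟩ := hFP T y hy t (hsub ht) p
  have d0 := hy.dx 0 t (hsub ht) p
  have d1 := hy.dx 1 t (hsub ht) p
  have hE2 : exp (-(2 * y 0 t p)) = E⁻¹ * E⁻¹ := by
    rw [hEe, ← exp_neg, ← exp_add]
    congr 1
    ring
  have hs2 : (1 + (y 1 t p) ^ 2) ≠ 0 := by positivity
  -- derivative of g in p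
  have hgp : HasDerivAt ((flowOf y).g t) (2 * E * y 1 t p * s
      - E * E * y 1 t p * (s * s) * (flowOf y).kap t p) p := by
    have h1 : HasDerivAt (fun x => exp (y 0 t x) * √(1 + (y 1 t x) ^ 2))
        (exp (y 0 t p) * y 1 t p * √(1 + (y 1 t p) ^ 2) +
          exp (y 0 t p) * ((((2 : ℕ) : ℝ) * (y 1 t p) ^ (2 - 1) * y 2 t p) /
            (2 * √(1 + (y 1 t p) ^ 2)))) p :=
      (d0.exp).mul (((d1.pow 2).const_add 1).sqrt hs2)
    have h2 : (flowOf y).g t = fun x => exp (y 0 t x) * √(1 + (y 1 t x) ^ 2) := rfl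
    rw [h2]
    convert h1 using 1
    rw [← hEe, ← hse, ha2]
    push_cast
    field_simp
    ring
  -- derivative of R in p
  have hρ : deriv (R t) p = -((s * s) * ((flowOf y).v1 t p
      + (flowOf y).lam t p * (flowOf y).kap t p)) := by
    have h1 : HasDerivAt (R t) (-((flowOf y).g t p * (flowOf y).v1 t p *
        ((flowOf y).g t p * exp (-(2 * y 0 t p))) +
        (flowOf y).v t p * ((2 * E * y 1 t p * s
      - E * E * y 1 t p * (s * s) * (flowOf y).kap t p) * exp (-(2 * y 0 t p)) +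
        (flowOf y).g t p * (exp (-(2 * y 0 t p)) * (-(2 * y 1 t p)))))) p :=
      (hvp.mul (hgp.mul ((d0.const_mul 2).neg.exp))).neg
    rw [h1.deriv, hE2, hg]
    have hl : (flowOf y).lam t p = -((flowOf y).v t p * y 1 t p) := rfl
    rw [hl]
    field_simp
    ring
  have hy1 : HasDerivAt (fun s => y 1 s p) (-((s * s) * ((flowOf y).v1 t p
      + (flowOf y).lam t p * (flowOf y).kap t p))) t := by
    rw [← hρ]
    exact hsw t ht p
  have hy0 : HasDerivAt (fun s => y 0 s p) (-((flowOf y).v t p * (s * E⁻¹))) t := by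
    have h1 := hdt t ht p
    convert h1 using 1
    simp only [hR]
    rw [hE2, hg]
    field_simp
  have hl : (flowOf y).lam t p = -((flowOf y).v t p * y 1 t p) := rfl
  have hth : (flowOf y).th t p = p - arctan (y 1 t p) := rfl
  obtain ⟨hsin, hcos⟩ := FT1.trig (y 1 t p) p s hse
  refine ⟨?_, ?_, ?_, ?_⟩
  · have h1 : HasDerivAt (fun r => exp (y 0 r p) * sin p)
        (exp (y 0 t p) * (-((flowOf y).v t p * (s * E⁻¹))) * sin p) t := hy0.exp.mul_const _
    have h2 : (fun r => (flowOf y).X r p) = fun r => exp (y 0 r p) * sin p := rfl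
    rw [h2]
    convert h1 using 1
    rw [hth, hsin, hcos, hl, ← hEe]
    field_simp
    linear_combination ((flowOf y).v t p * sin p) * hss
  · have h1 : HasDerivAt (fun r => 1 - exp (y 0 r p) * cos p)
        (-(exp (y 0 t p) * (-((flowOf y).v t p * (s * E⁻¹))) * cos p)) t :=
      (hy0.exp.mul_const _).const_sub 1
    have h2 : (fun r => (flowOf y).Y r p) = fun r => 1 - exp (y 0 r p) * cos p := rfl
    rw [h2]
    convert h1 using 1
    rw [hth, hsin, hcos, hl, ← hEe]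
    field_simp
    linear_combination (-((flowOf y).v t p * cos p)) * hss
  · have h1 : HasDerivAt (fun r => p - arctan (y 1 r p)) (-(1 / (1 + (y 1 t p) ^ 2) *
        (-((s * s) * ((flowOf y).v1 t p + (flowOf y).lam t p * (flowOf y).kap t p))))) t :=
      (hy1.arctan).const_sub p
    have h2 : (fun r => (flowOf y).th r p) = fun r => p - arctan (y 1 r p) := rfl
    rw [h2]
    convert h1 using 1
    rw [← hss]
    field_simp
  · have h1 : HasDerivAt (fun r => exp (y 0 r p) * √(1 + (y 1 r p) ^ 2))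
        (exp (y 0 t p) * (-((flowOf y).v t p * (s * E⁻¹))) * √(1 + (y 1 t p) ^ 2) +
          exp (y 0 t p) * ((((2 : ℕ) : ℝ) * (y 1 t p) ^ (2 - 1) *
            (-((s * s) * ((flowOf y).v1 t p + (flowOf y).lam t p * (flowOf y).kap t p)))) /
            (2 * √(1 + (y 1 t p) ^ 2)))) t :=
      (hy0.exp).mul (((hy1.pow 2).const_add 1).sqrt hs2)
    have h2 : (fun r => (flowOf y).g r p) = fun r => exp (y 0 r p) * √(1 + (y 1 r p) ^ 2) := rfl
    have h3 : HasDerivAt ((flowOf y).lam t)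
        (-((flowOf y).g t p * (flowOf y).v1 t p * y 1 t p + (flowOf y).v t p * y 2 t p)) p :=
      (hvp.mul d1).neg
    rw [h2, h3.deriv]
    convert h1 using 1
    rw [← hEe, ← hse, hg, hl, ha2]
    push_cast
    field_simp
    linear_combination ((flowOf y).v t p * E * (flowOf y).kap t p) * hss

end Pool.Agent.Lib.MP_c60e08_gt.Pde
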