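import Pool.Agent.Lib.MP_c60e08_gt.PdeSpec2

/-!
# MP_c60e08_gt, PDE part 2: `FT2Stmt`, the evolution of `v`
-/

namespace Pool.Agent.Lib.MP_c60e08_gt.Pde

open Real Set Pool.Agent.Lib.MP_c60e08_gt.Lm

namespace FT2

/-- algebra of the last step -/
theorem alg {f g u v v1 v2 kap lam lamp fs ze r C0 : ℝ} (hg : g ≠ 0) (hu : u ≠ 0) (hf : f ≠ 0)
    (hk : kap = v / f) (hfs : fs = 4 / 3 * f * r / u)
    (hC : C0 = v ^ 2 / f + 4 / 3 * (ze / u) * v) :
    (2 / 3 * (f / u) * (2 * (v * ze + lam * r))) * kap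
      + f * (((g * v2 + (lamp * kap + lam * (g * ((v1 - fs * kap) / f)))) * g
        - (g * kap) * (-(v * g * kap) + lamp)) / g ^ 2)
      = f * v2 + C0 * v + lam * v1 := by
  subst hk hfs hC
  field_simp
  ring

end FT2

theorem ft2 : XsAlgStmt → SwapStmt → PolSmStmt → FlowXsStmt → FlowPStmt → FqStmt → FT1Stmt →
    FT2Stmt := by
  intro hAlg hSwap hPolSm hFX hFP hFq hFT1 T y hy t ht p
  have hS : Ioo (0 : ℝ) T ⊆ Ico 0 T := Ioo_subset_Ico_self
  obtain ⟨hX1, _⟩ := hPolSm T y hy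
  have hX := hFX (Ioo 0 T) 0 T y hy hS (fun k m => hX1 0 k m)
  have hP := hFP T y hy
  have hT := hFT1 T y hy
  generalize flowOf y = W at *
  obtain ⟨xX, xY, xth, xg, xlam, xv, xv1, xv2, xv3, xu, xf, xkap, xr, xze, xC0, xginv⟩ := hX 1
  obtain ⟨a1, a2, a3, a4, a5, a6, a7, a8⟩ := hAlg (Ioo 0 T) 0
  have hut : XS (Ioo 0 T) 0 1 (fun t x => W.v1 t x + W.lam t x * W.kap t x) :=
    a6 1 _ _ xv1 (a7 1 _ _ xlam xkap)
  have hc1 : ContinuousOn (fun z : ℝ × ℝ => W.v1 z.1 z.2 + W.lam z.1 z.2 * W.kap z.1 z.2)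
      (Ioo 0 T ×ˢ univ) := hut.1.continuousOn
  have hc2 : ContinuousOn (fun z : ℝ × ℝ =>
      deriv (fun x => W.v1 z.1 x + W.lam z.1 x * W.kap z.1 x) z.2) (Ioo 0 T ×ˢ univ) :=
    ContDiffOn.continuousOn hut.2.2
  have hsw := hSwap T W.th (fun t p => W.g t p * W.kap t p)
    (fun t x => W.v1 t x + W.lam t x * W.kap t x)
    (fun t x => deriv (fun x => W.v1 t x + W.lam t x * W.kap t x) x)
    hc1 hc2 (fun s hs x => (hP s (hS hs) x).2.2.2.2.1) (fun s hs x => (hT s hs x).2.2.1)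
    (fun s hs x => (hut.2.1 s hs x).hasDerivAt) t ht p
  obtain ⟨hg, hu, hXp, hYp, hthp, hvp, hv1p, hv2p⟩ := hP t (hS ht) p
  obtain ⟨hf, hup, hfp, hzep, hkapp, hC0p⟩ := hFq W t p hu hXp hYp hthp hvp
  obtain ⟨hXt, hYt, htht, hgt⟩ := hT t ht p
  have hlamp : HasDerivAt (W.lam t) (deriv (W.lam t) p) p := (xlam.2.1 t ht p).hasDerivAt
  have hd : deriv (fun x => W.v1 t x + W.lam t x * W.kap t x) p
      = W.g t p * W.v2 t p + (deriv (W.lam t) p * W.kap t p
        + W.lam t p * (W.g t p * ((W.v1 t p - W.fs t p * W.kap t p) / W.f t p))) :=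
    (hv1p.add (hlamp.mul hkapp)).deriv
  simp only [hd] at hsw
  -- the curvature
  have hnear : ∀ᶠ s in nhds t, s ∈ Ioo 0 T := isOpen_Ioo.mem_nhds ht
  have hkt := hsw.div hgt hg.ne'
  have hkt' : HasDerivAt (fun s => W.kap s p)
      (((W.g t p * W.v2 t p + (deriv (W.lam t) p * W.kap t p
        + W.lam t p * (W.g t p * ((W.v1 t p - W.fs t p * W.kap t p) / W.f t p)))) * W.g t p
        - (W.g t p * W.kap t p) * (-(W.v t p * W.g t p * W.kap t p) + deriv (W.lam t) p))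
        / W.g t p ^ 2) t := by
    refine hkt.congr_of_eventuallyEq ?_
    filter_upwards [hnear] with s hs
    have h1 := (hP s (hS hs) p).1
    simp only [Pi.div_apply]
    field_simp
  -- the speed factor
  have hut1 : HasDerivAt (fun s => W.u s p)
      (2 * (W.v t p * W.ze t p + W.lam t p * W.r t p)) t := by
    have h1 := (hXt.pow 2).add (hYt.pow 2)
    refine h1.congr_deriv ?_
    simp only [FlowData.ze, FlowData.r]
    ring
  have hft : HasDerivAt (fun s => W.f s p)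
      (2 / 3 * (W.f t p / W.u t p) * (2 * (W.v t p * W.ze t p + W.lam t p * W.r t p))) t := by
    have h1 := (hut1.rpow_const (p := (2 : ℝ) / 3) (Or.inl hu.ne')).const_mul 3
    refine h1.congr_deriv ?_
    simp only [FlowData.f, fS]
    rw [Real.rpow_sub_one hu.ne']
    ring
  have hv := hft.mul hkt'
  have hv' : HasDerivAt (fun s => W.v s p)
      ((2 / 3 * (W.f t p / W.u t p) * (2 * (W.v t p * W.ze t p + W.lam t p * W.r t p)))
        * W.kap t p + W.f t p * (((W.g t p * W.v2 t p + (deriv (W.lam t) p * W.kap t p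
        + W.lam t p * (W.g t p * ((W.v1 t p - W.fs t p * W.kap t p) / W.f t p)))) * W.g t p
        - (W.g t p * W.kap t p) * (-(W.v t p * W.g t p * W.kap t p) + deriv (W.lam t) p))
        / W.g t p ^ 2)) t := by
    refine hv.congr_of_eventuallyEq ?_
    filter_upwards [hnear] with s hs
    obtain ⟨_, hu', hXp', hYp', hthp', hvp', _, _⟩ := hP s (hS hs) p
    have hf' := (hFq W s p hu' hXp' hYp' hthp' hvp').1
    simp only [Pi.mul_apply, FlowData.kap]
    field_simp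
  refine hv'.congr_deriv ?_
  exact FT2.alg hg.ne' hu.ne' hf.ne' rfl rfl rfl

end Pool.Agent.Lib.MP_c60e08_gt.Pde
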