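import Pool.Agent.Lib.MP_c60e08_gt.PdeSpec2

/-!
MP_c60e08_gt, PDE part, module FT3: the evolution of `v1`.
-/

namespace Pool.Agent.Lib.MP_c60e08_gt.Pde

open Real Set Pool.Agent.Lib.MP_c60e08_gt.Lm

namespace FT3

/-- unfolding of the class `XS` at level one -/
theorem xs_one {S : Set ℝ} {n : ℕ} {F : ℝ → ℝ → ℝ} (h : XS S n 1 F) :
    ContinuousOn (fun z : ℝ × ℝ => F z.1 z.2) (S ×ˢ univ) ∧
    (∀ t ∈ S, ∀ x, HasDerivAt (F t) (deriv (F t) x) x) ∧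
    ContinuousOn (fun z : ℝ × ℝ => deriv (F z.1) z.2) (S ×ˢ univ) := by
  have h' : ContDiffOn ℝ n (fun z : ℝ × ℝ => F z.1 z.2) (S ×ˢ univ) ∧
      (∀ t ∈ S, ∀ x, DifferentiableAt ℝ (F t) x) ∧
      ContDiffOn ℝ n (fun z : ℝ × ℝ => deriv (F z.1) z.2) (S ×ˢ univ) := h
  exact ⟨h'.1.continuousOn, fun t ht x => (h'.2.1 t ht x).hasDerivAt, h'.2.2.continuousOn⟩

end FT3

open FT3 in
theorem ft3 : XsAlgStmt → SwapStmt → PolSmStmt → FlowXsStmt → FlowPStmt → FqStmt →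
    FT1Stmt → FT2Stmt → FT3Stmt := by
  intro halg hswap hpolsm hflowxs hflowp hfq hft1 hft2 T y hpol t ht p
  have hsub : Ioo 0 T ⊆ Ico 0 T := fun s hs => ⟨hs.1.le, hs.2⟩
  have hall := hflowxs (Ioo 0 T) 0 T y hpol hsub (fun k m => (hpolsm T y hpol).1 0 k m) 1
  obtain ⟨-, -, -, hgX, hlamX, hvX, hv1X, hv2X, -, -, hfX, -, -, -, hC0X, -⟩ := hall
  obtain ⟨-, -, -, -, -, hadd, hmul, -⟩ := halg (Ioo 0 T) 0
  set W := flowOf y with hWdef
  have hVX : XS (Ioo 0 T) 0 1 (fun t p => W.f t p * W.v2 t p + W.C0 t p * W.v t p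
      + W.lam t p * W.v1 t p) :=
    hadd 1 _ _ (hadd 1 _ _ (hmul 1 _ _ hfX hv2X) (hmul 1 _ _ hC0X hvX))
      (hmul 1 _ _ hlamX hv1X)
  obtain ⟨hVc, hVd, hVdc⟩ := xs_one hVX
  obtain ⟨-, hlamd, -⟩ := xs_one hlamX
  have hsw := hswap T W.v (fun t p => W.g t p * W.v1 t p)
    (fun t p => W.f t p * W.v2 t p + W.C0 t p * W.v t p + W.lam t p * W.v1 t p)
    (fun t p => deriv (fun p => W.f t p * W.v2 t p + W.C0 t p * W.v t p
      + W.lam t p * W.v1 t p) p) hVc hVdc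
    (fun s hs x => (hflowp T y hpol s (hsub hs) x).2.2.2.2.2.1)
    (fun s hs x => hft2 T y hpol s hs x) hVd t ht p
  obtain ⟨hg, hu, hXp, hYp, hthp, hvp, hv1p, hv2p⟩ := hflowp T y hpol t (hsub ht) p
  obtain ⟨hf, -, hfp, -, -, hC0p⟩ := hfq W t p hu hXp hYp hthp hvp
  have hVp : deriv (fun p => W.f t p * W.v2 t p + W.C0 t p * W.v t p
      + W.lam t p * W.v1 t p) p = (W.g t p * W.fs t p * W.v2 t p +
        W.f t p * (W.g t p * W.v3 t p)) + (W.g t p * W.C1 t p * W.v t p +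
        W.C0 t p * (W.g t p * W.v1 t p)) + (deriv (W.lam t) p * W.v1 t p +
        W.lam t p * (W.g t p * W.v2 t p)) :=
    (((hfp.mul hv2p).add (hC0p.mul hvp)).add ((hlamd t ht p).mul hv1p)).deriv
  have hgt : HasDerivAt (fun s => W.g s p)
      (-(W.v t p * W.g t p * W.kap t p) + deriv (W.lam t) p) t := (hft1 T y hpol t ht p).2.2.2
  have hdiv := hsw.div hgt hg.ne'
  have hev : (fun s => W.v1 s p) =ᶠ[nhds t]
      ((fun s => W.g s p * W.v1 s p) / (fun s => W.g s p)) := by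
    filter_upwards [isOpen_Ioo.mem_nhds ht] with s hs
    have hgs : 0 < W.g s p := (hflowp T y hpol s (hsub hs) p).1
    simp only [Pi.div_apply]
    field_simp
  have hres := hdiv.congr_of_eventuallyEq hev
  refine hres.congr_deriv ?_
  rw [hVp]
  have hkap : W.kap t p = W.v t p / W.f t p := rfl
  have hgne : W.g t p ≠ 0 := hg.ne'
  have hfne : W.f t p ≠ 0 := hf.ne'
  simp only [hkap]
  field_simp
  ring

end Pool.Agent.Lib.MP_c60e08_gt.Pde
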