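import Pool.Agent.Lib.MP_c60e08_gt.PdeSpec1

/-!
MP_c60e08_gt: bounds for a smooth family of periodic functions.
-/

namespace Pool.Agent.Lib.MP_c60e08_gt.Pde

open Real Set Pool.Agent.Lib.MP_c60e08_gt.Lm

namespace Fam

lemma smooth_deriv (G : ℝ → ℝ → ℝ)
    (hG : ContDiff ℝ (⊤ : ℕ∞) (fun z : ℝ × ℝ => G z.1 z.2)) :
    ContDiff ℝ (⊤ : ℕ∞) (fun z : ℝ × ℝ => deriv (G z.1) z.2) := by
  have h1 : (fun z : ℝ × ℝ => deriv (G z.1) z.2)
      = fun z : ℝ × ℝ => fderiv ℝ (fun z : ℝ × ℝ => G z.1 z.2) z ((0 : ℝ), (1 : ℝ)) := by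
    funext z
    obtain ⟨l, x⟩ := z
    have h2 : HasFDerivAt (fun z : ℝ × ℝ => G z.1 z.2)
        (fderiv ℝ (fun z : ℝ × ℝ => G z.1 z.2) (l, x)) (l, x) :=
      (hG.differentiable (by simp) (l, x)).hasFDerivAt
    have h3 : HasDerivAt (fun x : ℝ => ((l, x) : ℝ × ℝ)) ((0 : ℝ), (1 : ℝ)) x :=
      (hasDerivAt_const x l).prodMk (hasDerivAt_id x)
    have h4 : HasDerivAt (fun x : ℝ => G l x)
        (fderiv ℝ (fun z : ℝ × ℝ => G z.1 z.2) (l, x) ((0 : ℝ), (1 : ℝ))) x :=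
      h2.comp_hasDerivAt x h3
    exact h4.deriv
  rw [h1]
  exact (hG.fderiv_right (m := ((⊤ : ℕ∞) : WithTop ℕ∞)) (by simp)).clm_apply contDiff_const

lemma smooth_iter (G : ℝ → ℝ → ℝ)
    (hG : ContDiff ℝ (⊤ : ℕ∞) (fun z : ℝ × ℝ => G z.1 z.2)) (j : ℕ) :
    ContDiff ℝ (⊤ : ℕ∞) (fun z : ℝ × ℝ => iteratedDeriv j (G z.1) z.2) := by
  induction j with
  | zero => simpa using hG
  | succ j ih =>
    have h1 := smooth_deriv (fun l x => iteratedDeriv j (G l) x) ih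
    have h2 : (fun z : ℝ × ℝ => iteratedDeriv (j + 1) (G z.1) z.2)
        = fun z : ℝ × ℝ => deriv ((fun l x => iteratedDeriv j (G l) x) z.1) z.2 := by
      funext z
      rw [iteratedDeriv_succ]
    rw [h2]
    exact h1

end Fam

theorem fam : FamStmt := by
  intro y0 hy0 hper l0
  have hpi : (0 : ℝ) < 2 * π := by positivity
  have hK : IsCompact (Icc (l0 - 1) (l0 + 1) ×ˢ Icc (0 : ℝ) (2 * π)) :=
    isCompact_Icc.prod isCompact_Icc
  constructor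
  · have hc : ContinuousOn (fun z : ℝ × ℝ => iteratedDeriv 4 (y0 z.1) z.2)
        (Icc (l0 - 1) (l0 + 1) ×ˢ Icc (0 : ℝ) (2 * π)) :=
      (Fam.smooth_iter y0 hy0 4).continuous.continuousOn
    obtain ⟨M, hM⟩ := hK.exists_bound_of_continuousOn hc
    refine ⟨M, fun l hl x => ?_⟩
    have hp : Function.Periodic (iteratedDeriv 4 (y0 l)) (2 * π) := by
      intro x
      have h1 := iteratedDeriv_comp_add_const 4 (y0 l) (2 * π)
      have h2 : (fun z => y0 l (z + 2 * π)) = y0 l := funext (hper l)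
      rw [h2] at h1
      exact (congrFun h1 x).symm
    obtain ⟨y, hy, hxy⟩ := hp.exists_mem_Ico₀ hpi x
    rw [hxy]
    have h3 := abs_le.mp hl
    exact hM (l, y) ⟨⟨by linarith [h3.1], by linarith [h3.2]⟩, ⟨hy.1, hy.2.le⟩⟩
  · intro δ hδ
    have hc : ContinuousOn (fun z : ℝ × ℝ => y0 z.1 z.2)
        (Icc (l0 - 1) (l0 + 1) ×ˢ Icc (0 : ℝ) (2 * π)) := hy0.continuous.continuousOn
    have huc := hK.uniformContinuousOn_of_continuous hc
    rw [Metric.uniformContinuousOn_iff] at huc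
    obtain ⟨δ', hδ', h1⟩ := huc δ hδ
    refine ⟨min δ' 1, lt_min hδ' one_pos, fun l hl x => ?_⟩
    have hp : Function.Periodic (fun x => (y0 l x, y0 l0 x)) (2 * π) := by
      intro x
      simp only [hper]
    obtain ⟨y, hy, hxy⟩ := hp.exists_mem_Ico₀ hpi x
    simp only [Prod.mk.injEq] at hxy
    rw [hxy.1, hxy.2]
    have hl1 : |l - l0| < δ' := lt_of_lt_of_le hl (min_le_left _ _)
    have hl2 := abs_lt.mp (lt_of_lt_of_le hl (min_le_right _ _))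
    have h2 := h1 (l, y) ⟨⟨by linarith [hl2.1], by linarith [hl2.2]⟩, ⟨hy.1, hy.2.le⟩⟩
      (l0, y) ⟨⟨by linarith, by linarith⟩, ⟨hy.1, hy.2.le⟩⟩ (by
        rw [Prod.dist_eq, dist_self, Real.dist_eq]
        exact max_lt hl1 hδ')
    rw [Real.dist_eq] at h2
    exact h2.le

end Pool.Agent.Lib.MP_c60e08_gt.Pde
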