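import Pool.Agent.Lib.MP_c60e08_gt.PdeSpec2

/-!
MP_c60e08_gt, module FlowMain: polar graph solutions are flows.
-/

set_option autoImplicit false

namespace Pool.Agent.Lib.MP_c60e08_gt.Pde

open Real Set Pool.Agent.Lib.MP_c60e08_gt.Lm

namespace FlowMain

theorem cont_of_XS {S : Set ℝ} {k : ℕ} {F : ℝ → ℝ → ℝ} (h : XS S 0 k F) :
    ContinuousOn (fun z : ℝ × ℝ => F z.1 z.2) (S ×ˢ univ) := by
  cases k with
  | zero => exact contDiffOn_zero.mp h
  | succ k => exact contDiffOn_zero.mp h.1

end FlowMain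

open FlowMain in
theorem flow_main : FlowMainStmt := by
  intro hPol hXs hP h1 h2 h3 hB T y hT hy h0
  obtain ⟨aX, aY, ath, ag, alam, av, av1, av2, av3, -⟩ :=
    hXs (Ico 0 T) 0 T y hy (subset_refl _) (hPol T y hy).2 0
  have hp := hP T y hy
  have hb := hB T y hy h0
  exact
    { Tpos := hT
      cX := cont_of_XS aX
      cY := cont_of_XS aY
      cth := cont_of_XS ath
      cg := cont_of_XS ag
      clam := cont_of_XS alam
      cv := cont_of_XS av
      cv1 := cont_of_XS av1
      cv2 := cont_of_XS av2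
      cv3 := cont_of_XS av3
      gpos := fun t ht p => (hp t ht p).1
      upos := fun t ht p => (hp t ht p).2.1
      Xp := fun t ht p => (hp t ht p).2.2.1
      Yp := fun t ht p => (hp t ht p).2.2.2.1
      thp := fun t ht p => (hp t ht p).2.2.2.2.1
      vp := fun t ht p => (hp t ht p).2.2.2.2.2.1
      v1p := fun t ht p => (hp t ht p).2.2.2.2.2.2.1
      v2p := fun t ht p => (hp t ht p).2.2.2.2.2.2.2
      Xt := fun t ht p => (h1 T y hy t ht p).1
      Yt := fun t ht p => (h1 T y hy t ht p).2.1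
      tht := fun t ht p => (h1 T y hy t ht p).2.2.1
      vt := fun t ht p => h2 T y hy t ht p
      v1t := fun t ht p => h3 T y hy t ht p
      X0 := fun t ht => (hb t ht).1
      th0 := fun t ht => (hb t ht).2.1
      v10 := fun t ht => (hb t ht).2.2.1
      lam0 := fun t ht => (hb t ht).2.2.2.1
      Xpi := fun t ht => (hb t ht).2.2.2.2.1
      thpi := fun t ht => (hb t ht).2.2.2.2.2.1
      v1pi := fun t ht => (hb t ht).2.2.2.2.2.2.1
      lampi := fun t ht => (hb t ht).2.2.2.2.2.2.2.1
      Xpos := fun t ht => (hb t ht).2.2.2.2.2.2.2.2.1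
      tip := fun t ht => (hb t ht).2.2.2.2.2.2.2.2.2.1
      top := fun t ht => (hb t ht).2.2.2.2.2.2.2.2.2.2 }

end Pool.Agent.Lib.MP_c60e08_gt.Pde
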