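import Pool.Agent.Lib.MP_c60e08_gt.PdeSpec2

/-!
MP_c60e08_gt, PDE part, module FlowP: the spatial derivatives of the flow of a polar graph.
-/

namespace Pool.Agent.Lib.MP_c60e08_gt.Pde

open Real Set Pool.Agent.Lib.MP_c60e08_gt.Lm

namespace FlowP

lemma u_eq (y : ℕ → ℝ → ℝ → ℝ) (t p : ℝ) : (flowOf y).u t p = uu p (y 0 t p) := by
  have h : exp (2 * y 0 t p) = exp (y 0 t p) ^ 2 := by
    rw [← exp_nat_mul]
    norm_num
  unfold FlowData.u uu
  simp only [flowOf]
  rw [h]
  have := sin_sq_add_cos_sq p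
  linear_combination (exp (y 0 t p)) ^ 2 * this

lemma pg_pos (y : ℕ → ℝ → ℝ → ℝ) (t p : ℝ) : 0 < pg y t p := by
  unfold pg
  have : 0 < 1 + y 1 t p ^ 2 := by positivity
  have := sqrt_pos.2 this
  positivity

lemma fS_pos {u : ℝ} (hu : 0 < u) : 0 < fS u := by
  unfold fS
  have := rpow_pos_of_pos hu ((2 : ℝ) / 3)
  linarith

lemma of_diff {y : ℕ → ℝ → ℝ → ℝ} {F : ℝ → ℝ → ℝ} {t p : ℝ}
    (h : DifferentiableAt ℝ (F t) p) : HasDerivAt (F t) (pg y t p * pD y F t p) p := by
  have hg := (pg_pos y t p).ne'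
  have h1 : pg y t p * pD y F t p = deriv (F t) p := by
    unfold pD
    field_simp
  rw [h1]
  exact h.hasDerivAt

end FlowP

open FlowP

theorem flowP : PolSmStmt → FlowXsStmt → FlowPStmt := by
  intro hPS hFX T y hy t ht p
  have hxs := hFX (Ico 0 T) 0 T y hy (subset_refl _) (fun k m => (hPS T y hy).2 k m) 1
  obtain ⟨-, -, -, -, -, hv, hv1, hv2, -⟩ := hxs
  have dv := hv.2.1 t ht p
  have dv1 := hv1.2.1 t ht p
  have dv2 := hv2.2.1 t ht p
  have h0 := hy.dx 0 t ht p
  have h1 := hy.dx 1 t ht p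
  simp only [zero_add, Nat.reduceAdd] at h0 h1
  have hu : 0 < (flowOf y).u t p := by
    rw [u_eq]
    exact hy.pos t ht p
  have hg : 0 < pg y t p := pg_pos y t p
  have hq : 0 < 1 + y 1 t p ^ 2 := by positivity
  have hsq : 0 < √(1 + y 1 t p ^ 2) := sqrt_pos.2 hq
  have hexp := exp_pos (y 0 t p)
  refine ⟨hg, hu, ?_, ?_, ?_, of_diff dv, of_diff dv1, of_diff dv2⟩
  · have h := (h0.exp).mul (hasDerivAt_sin p)
    refine HasDerivAt.congr_deriv (f := (flowOf y).X t) h ?_
    simp only [flowOf, pg]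
    rw [cos_sub, cos_arctan, sin_arctan]
    field_simp
    ring
  · have h := ((h0.exp).mul (hasDerivAt_cos p)).const_sub 1
    refine HasDerivAt.congr_deriv (f := (flowOf y).Y t) h ?_
    simp only [flowOf, pg]
    rw [sin_sub, cos_arctan, sin_arctan]
    field_simp
    ring
  · have h := (hasDerivAt_id p).sub h1.arctan
    refine HasDerivAt.congr_deriv (f := (flowOf y).th t) h ?_
    have hf : 0 < fS (uu p (y 0 t p)) := fS_pos (hy.pos t ht p)
    have e1 : (flowOf y).f t p = fS (uu p (y 0 t p)) := by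
      unfold FlowData.f
      rw [u_eq]
    have e2 : (flowOf y).kap t p = fS (uu p (y 0 t p)) * (1 - y 2 t p / (1 + (y 1 t p) ^ 2)) /
        pg y t p / fS (uu p (y 0 t p)) := by
      unfold FlowData.kap
      rw [e1]
      rfl
    rw [e2]
    change _ = pg y t p * _
    field_simp

end Pool.Agent.Lib.MP_c60e08_gt.Pde
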