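import Pool.Agent.Lib.MP_c60e08_gt.PdeSpec2

set_option autoImplicit false

/-!
FLOWXS: all functions of the flow of a polar graph solution are in the class `XS`.
-/

namespace Pool.Agent.Lib.MP_c60e08_gt.Pde

open Real Set Pool.Agent.Lib.MP_c60e08_gt.Lm

namespace FlowXs

/-- in `XS` for all `k` -/
def XA (S : Set ℝ) (n : ℕ) (F : ℝ → ℝ → ℝ) : Prop := ∀ k, XS S n k F

variable {S : Set ℝ} {n : ℕ} {F G : ℝ → ℝ → ℝ}

theorem congr (h : XsAlgStmt) (hFG : ∀ t ∈ S, ∀ x, F t x = G t x) (hF : XA S n F) : XA S n G :=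
  fun k => (h S n).2.1 k F G hFG (hF k)

theorem const (h : XsAlgStmt) (c : ℝ) : XA S n (fun _ _ => c) :=
  fun k => (h S n).2.2.2.1 k c

theorem idx (h : XsAlgStmt) : XA S n (fun _ x => x) :=
  fun k => (h S n).2.2.2.2.1 k

theorem add (h : XsAlgStmt) (hF : XA S n F) (hG : XA S n G) :
    XA S n (fun t x => F t x + G t x) :=
  fun k => (h S n).2.2.2.2.2.1 k F G (hF k) (hG k)

theorem mul (h : XsAlgStmt) (hF : XA S n F) (hG : XA S n G) :
    XA S n (fun t x => F t x * G t x) :=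
  fun k => (h S n).2.2.2.2.2.2.1 k F G (hF k) (hG k)

theorem neg (h : XsAlgStmt) (hF : XA S n F) : XA S n (fun t x => -F t x) :=
  fun k => (h S n).2.2.2.2.2.2.2 k F (hF k)

theorem sub (h : XsAlgStmt) (hF : XA S n F) (hG : XA S n G) :
    XA S n (fun t x => F t x - G t x) :=
  congr h (fun t _ x => by ring) (add h hF (neg h hG))

theorem der (hF : XA S n F) : XA S n (fun t x => deriv (F t) x) :=
  fun k => (hF (k + 1)).2.2

theorem comp (h : XsCompStmt) {U : Set ℝ} {A : ℝ → ℝ} (hU : IsOpen U)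
    (hA : ContDiffOn ℝ (⊤ : ℕ∞) A U) (hF : XA S n F) (hmem : ∀ t ∈ S, ∀ x, F t x ∈ U) :
    XA S n (fun t x => A (F t x)) :=
  fun k => h.2 S n k U A F hU hA (hF k) hmem

theorem inv (h : XsCompStmt) (hF : XA S n F) (hpos : ∀ t ∈ S, ∀ x, 0 < F t x) :
    XA S n (fun t x => (F t x)⁻¹) :=
  comp h (A := fun x => x⁻¹) (U := Ioi 0) isOpen_Ioi
    (fun x hx => (contDiffAt_inv ℝ (ne_of_gt hx)).contDiffWithinAt) hF hpos

theorem div (ha : XsAlgStmt) (h : XsCompStmt) (hF : XA S n F) (hG : XA S n G)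
    (hpos : ∀ t ∈ S, ∀ x, 0 < G t x) :
    XA S n (fun t x => F t x / G t x) :=
  congr ha (fun t _ x => (div_eq_mul_inv _ _).symm) (mul ha hF (inv h hG hpos))

theorem sqrt (h : XsCompStmt) (hF : XA S n F) (hpos : ∀ t ∈ S, ∀ x, 0 < F t x) :
    XA S n (fun t x => √(F t x)) :=
  comp h (A := fun x => √x) (U := Ioi 0) isOpen_Ioi
    (fun x hx => (Real.contDiffAt_sqrt (ne_of_gt hx)).contDiffWithinAt) hF hpos

theorem fs (h : XsCompStmt) (hF : XA S n F) (hpos : ∀ t ∈ S, ∀ x, 0 < F t x) :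
    XA S n (fun t x => fS (F t x)) := by
  refine comp h (A := fS) (U := Ioi 0) isOpen_Ioi ?_ hF hpos
  intro x hx
  have h1 : ContDiffAt ℝ (⊤ : ℕ∞) (fun u : ℝ => 3 * u ^ ((2 : ℝ) / 3)) x :=
    contDiffAt_const.mul (Real.contDiffAt_rpow_const_of_ne (ne_of_gt hx))
  exact h1.contDiffWithinAt

theorem smooth (h : XsCompStmt) {A : ℝ → ℝ} (hA : ContDiff ℝ (⊤ : ℕ∞) A) (hF : XA S n F) :
    XA S n (fun t x => A (F t x)) :=
  comp h (U := univ) isOpen_univ hA.contDiffOn hF (fun _ _ _ => mem_univ _)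

theorem sq (ha : XsAlgStmt) (hF : XA S n F) : XA S n (fun t x => F t x ^ 2) :=
  congr ha (fun t _ x => (pow_two _).symm) (mul ha hF hF)

theorem main (ha : XsAlgStmt) (hc : XsCompStmt) (S : Set ℝ) (n : ℕ) (T : ℝ)
    (y : ℕ → ℝ → ℝ → ℝ) (hy : PolarSol T y) (hS : S ⊆ Ico 0 T) (hXS : ∀ m, XA S n (y m)) :
    XA S n (flowOf y).X ∧ XA S n (flowOf y).Y ∧ XA S n (flowOf y).th ∧
    XA S n (flowOf y).g ∧ XA S n (flowOf y).lam ∧ XA S n (flowOf y).v ∧
    XA S n (flowOf y).v1 ∧ XA S n (flowOf y).v2 ∧ XA S n (flowOf y).v3 ∧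
    XA S n (flowOf y).u ∧ XA S n (flowOf y).f ∧ XA S n (flowOf y).kap ∧
    XA S n (flowOf y).r ∧ XA S n (flowOf y).ze ∧ XA S n (flowOf y).C0 ∧
    XA S n (fun t p => ((flowOf y).g t p)⁻¹) := by
  have hid : XA S n (fun _ x => x) := idx ha
  have hexp : XA S n (fun t p => exp (y 0 t p)) := smooth hc Real.contDiff_exp (hXS 0)
  have hsin : XA S n (fun _ p => sin p) := smooth hc Real.contDiff_sin hid
  have hcos : XA S n (fun _ p => cos p) := smooth hc Real.contDiff_cos hid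
  have hatan : XA S n (fun t p => arctan (y 1 t p)) := smooth hc Real.contDiff_arctan (hXS 1)
  have hq : XA S n (fun t p => 1 + (y 1 t p) ^ 2) := add ha (const ha 1) (sq ha (hXS 1))
  have hqpos : ∀ t ∈ S, ∀ x, (0 : ℝ) < 1 + (y 1 t x) ^ 2 := fun t _ x => by positivity
  have hg : XA S n (pg y) := mul ha hexp (sqrt hc hq hqpos)
  have hgpos : ∀ t ∈ S, ∀ x, 0 < pg y t x := fun t _ x => by
    unfold pg
    exact mul_pos (Real.exp_pos _) (Real.sqrt_pos.mpr (by positivity))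
  have hexp2 : XA S n (fun t p => exp (2 * y 0 t p)) :=
    smooth hc Real.contDiff_exp (mul ha (const ha 2) (hXS 0))
  have huu : XA S n (fun t p => uu p (y 0 t p)) := by
    unfold uu
    exact add ha (sub ha hexp2 (mul ha (mul ha (const ha 2) hexp) hcos)) (const ha 1)
  have huupos : ∀ t ∈ S, ∀ x, 0 < uu x (y 0 t x) := fun t ht x => hy.pos t (hS ht) x
  have hv : XA S n (pv y) := by
    have h1 : XA S n (fun t p => 1 - y 2 t p / (1 + (y 1 t p) ^ 2)) :=
      sub ha (const ha 1) (div ha hc (hXS 2) hq hqpos)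
    exact div ha hc (mul ha (fs hc huu huupos) h1) hg hgpos
  have hpD : ∀ F : ℝ → ℝ → ℝ, XA S n F → XA S n (pD y F) := fun F hF =>
    div ha hc (der hF) hg hgpos
  have hX : XA S n (flowOf y).X := mul ha hexp hsin
  have hY : XA S n (flowOf y).Y := sub ha (const ha 1) (mul ha hexp hcos)
  have hth : XA S n (flowOf y).th := sub ha hid hatan
  have hueq : ∀ t p, (flowOf y).u t p = uu p (y 0 t p) := by
    intro t p
    simp only [FlowData.u, flowOf, uu]
    have h := Real.sin_sq_add_cos_sq p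
    have h2 : exp (2 * y 0 t p) = exp (y 0 t p) ^ 2 := by
      rw [← Real.exp_nat_mul]
      norm_num
    rw [h2]
    linear_combination (exp (y 0 t p)) ^ 2 * h
  have hu : XA S n (flowOf y).u := congr ha (fun t _ x => (hueq t x).symm) huu
  have hupos : ∀ t ∈ S, ∀ x, 0 < (flowOf y).u t x := fun t ht x => by
    rw [hueq]
    exact huupos t ht x
  have hf : XA S n (flowOf y).f := fs hc hu hupos
  have hfpos : ∀ t ∈ S, ∀ x, 0 < (flowOf y).f t x := fun t ht x => by
    unfold FlowData.f fS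
    have := Real.rpow_pos_of_pos (hupos t ht x) ((2 : ℝ) / 3)
    positivity
  have hsth : XA S n (fun t p => sin ((flowOf y).th t p)) := smooth hc Real.contDiff_sin hth
  have hcth : XA S n (fun t p => cos ((flowOf y).th t p)) := smooth hc Real.contDiff_cos hth
  have hr : XA S n (flowOf y).r := add ha (mul ha hX hcth) (mul ha hY hsth)
  have hze : XA S n (flowOf y).ze := by
    have h1 : XA S n (fun t p => - (flowOf y).X t p * sin ((flowOf y).th t p)
        + (flowOf y).Y t p * cos ((flowOf y).th t p)) :=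
      add ha (mul ha (neg ha hX) hsth) (mul ha hY hcth)
    exact h1
  have hv' : XA S n (flowOf y).v := hv
  have hC0 : XA S n (flowOf y).C0 := by
    have h1 : XA S n (fun t p => (flowOf y).v t p ^ 2 / (flowOf y).f t p) :=
      div ha hc (sq ha hv') hf hfpos
    have h2 : XA S n (fun t p => 4 / 3 * ((flowOf y).ze t p / (flowOf y).u t p)
        * (flowOf y).v t p) :=
      mul ha (mul ha (const ha (4 / 3)) (div ha hc hze hu hupos)) hv'
    exact add ha h1 h2
  exact ⟨hX, hY, hth, hg, neg ha (mul ha hv (hXS 1)), hv, hpD _ hv, hpD _ (hpD _ hv),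
    hpD _ (hpD _ (hpD _ hv)), hu, hf, div ha hc hv' hf hfpos, hr, hze, hC0, inv hc hg hgpos⟩

end FlowXs

theorem flowXs : XsAlgStmt → XsCompStmt → FlowXsStmt := by
  intro ha hc S n T y hy hS hXS k
  obtain ⟨h1, h2, h3, h4, h5, h6, h7, h8, h9, h10, h11, h12, h13, h14, h15, h16⟩ :=
    FlowXs.main ha hc S n T y hy hS (fun m k => hXS k m)
  exact ⟨h1 k, h2 k, h3 k, h4 k, h5 k, h6 k, h7 k, h8 k, h9 k, h10 k, h11 k, h12 k, h13 k, h14 k,
    h15 k, h16 k⟩

end Pool.Agent.Lib.MP_c60e08_gt.Pde
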