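import Pool.Agent.Lib.MP_c60e08_gt.PdeSpec2

/-!
Module FQ: consequences of the spatial flow equations at a fixed time.
-/

set_option autoImplicit false

namespace Pool.Agent.Lib.MP_c60e08_gt.Pde

open Real Set Pool.Agent.Lib.MP_c60e08_gt.Lm

theorem fq : FqStmt := by
  intro W t p hu hX hY hth hv
  have hf : 0 < W.f t p := by
    unfold FlowData.f fS
    positivity
  have hfdef : W.f t p = 3 * W.u t p ^ ((2 : ℝ) / 3) := rfl
  have du : HasDerivAt (W.u t) (2 * W.g t p * W.r t p) p := by
    have h := (hX.pow 2).add (hY.pow 2)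
    refine h.congr_deriv ?_
    unfold FlowData.r
    push_cast
    ring
  have df : HasDerivAt (W.f t) (W.g t p * W.fs t p) p := by
    have h := (du.rpow_const (p := (2 : ℝ) / 3) (Or.inl hu.ne')).const_mul 3
    refine h.congr_deriv ?_
    unfold FlowData.fs
    rw [Real.rpow_sub_one hu.ne', hfdef]
    field_simp
    ring
  have dze : HasDerivAt (W.ze t) (-(W.g t p * W.kap t p * W.r t p)) p := by
    have h := ((hX.neg).mul hth.sin).add (hY.mul hth.cos)
    refine h.congr_deriv ?_
    unfold FlowData.r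
    rw [Pi.neg_apply]
    ring
  have dk : HasDerivAt (W.kap t)
      (W.g t p * ((W.v1 t p - W.fs t p * W.kap t p) / W.f t p)) p := by
    have h := hv.div df hf.ne'
    refine h.congr_deriv ?_
    have hk : W.kap t p = W.v t p / W.f t p := rfl
    rw [hk]
    field_simp
  refine ⟨hf, du, df, dze, dk, ?_⟩
  have h := ((hv.pow 2).div df hf.ne').add
    (((dze.div du hu.ne').const_mul (4 / 3 : ℝ)).mul hv)
  refine h.congr_deriv ?_
  have hk : W.kap t p = W.v t p / W.f t p := rfl
  have hfs : W.fs t p = 4 / 3 * W.f t p * W.r t p / W.u t p := rfl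
  unfold FlowData.C1
  rw [hk, hfs, Pi.pow_apply, Pi.div_apply]
  push_cast
  field_simp
  ring

end Pool.Agent.Lib.MP_c60e08_gt.Pde
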