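import Pool.Agent.Lib.MP_c60e08_gt.PdeSpec1

/-!
# Interpolation: a small function with bounded fourth derivative has small derivatives
-/

set_option autoImplicit false

namespace Pool.Agent.Lib.MP_c60e08_gt.Pde

open Real Set Pool.Agent.Lib.MP_c60e08_gt.Lm

namespace Interp

theorem stepA (u : ℕ → ℝ → ℝ) (hu : ∀ m x, HasDerivAt (u m) (u (m + 1) x) x) {δ h : ℝ}
    (hh : 0 < h) (h0 : ∀ x, |u 0 x| ≤ δ) :
    ∀ k x, ∃ ξ ∈ Icc x (x + (2 ^ k - 1) * h), |u k ξ| ≤ 2 ^ k * δ / h ^ k := by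
  intro k
  induction k with
  | zero =>
    intro x
    refine ⟨x, by simp, ?_⟩
    simpa using h0 x
  | succ k ih =>
    intro x
    obtain ⟨ξ1, h1, b1⟩ := ih x
    obtain ⟨ξ2, h2, b2⟩ := ih (x + 2 ^ k * h)
    have hd : h ≤ ξ2 - ξ1 := by
      have := h1.2
      have := h2.1
      nlinarith
    have hlt : ξ1 < ξ2 := by linarith
    obtain ⟨c, hc, hc'⟩ := exists_hasDerivAt_eq_slope (u k) (u (k + 1)) hlt
      (fun y _ => (hu k y).continuousAt.continuousWithinAt) (fun y _ => hu k y)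
    refine ⟨c, ⟨h1.1.trans hc.1.le, hc.2.le.trans (h2.2.trans (le_of_eq ?_))⟩, ?_⟩
    · rw [pow_succ]; ring
    · rw [hc', abs_div, abs_of_pos (sub_pos.2 hlt)]
      have e1 : |u k ξ2 - u k ξ1| ≤ 2 * (2 ^ k * δ / h ^ k) := by
        refine (abs_sub _ _).trans ?_
        linarith
      have e0 : (0 : ℝ) ≤ 2 * (2 ^ k * δ / h ^ k) := (abs_nonneg _).trans e1
      calc |u k ξ2 - u k ξ1| / (ξ2 - ξ1) ≤ 2 * (2 ^ k * δ / h ^ k) / h :=
            div_le_div₀ e0 e1 hh hd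
        _ = 2 ^ (k + 1) * δ / h ^ (k + 1) := by
            rw [pow_succ, pow_succ]
            field_simp

theorem mvt (f f' : ℝ → ℝ) (hf : ∀ x, HasDerivAt f (f' x) x) {S : ℝ} (hS : ∀ x, |f' x| ≤ S)
    (x y : ℝ) : |f y - f x| ≤ S * |y - x| := by
  have := Convex.norm_image_sub_le_of_norm_hasDerivWithin_le (f := f) (f' := f') (C := S)
    (s := univ) (x := x) (y := y) (fun z _ => (hf z).hasDerivWithinAt)
    (fun z _ => hS z) convex_univ trivial trivial
  simpa [Real.norm_eq_abs] using this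

theorem stepB (u : ℕ → ℝ → ℝ) (hu : ∀ m x, HasDerivAt (u m) (u (m + 1) x) x) {δ h S : ℝ}
    (hh : 0 < h) (h0 : ∀ x, |u 0 x| ≤ δ) (k : ℕ) (hS : ∀ x, |u (k + 1) x| ≤ S) (x : ℝ) :
    |u k x| ≤ 2 ^ k * δ / h ^ k + (2 ^ k - 1) * h * S := by
  obtain ⟨ξ, hξ, hb⟩ := stepA u hu hh h0 k x
  have h1 := mvt (u k) (u (k + 1)) (hu k) hS ξ x
  have hS0 : 0 ≤ S := (abs_nonneg _).trans (hS 0)
  have h2 : |x - ξ| ≤ (2 ^ k - 1) * h := by
    rw [abs_sub_comm, abs_of_nonneg (by linarith [hξ.1])]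
    linarith [hξ.2]
  have h3 : u k x = (u k x - u k ξ) + u k ξ := by ring
  rw [h3]
  refine (abs_add_le _ _).trans ?_
  have h4 : S * |x - ξ| ≤ S * ((2 ^ k - 1) * h) := mul_le_mul_of_nonneg_left h2 hS0
  nlinarith

end Interp

open Interp in
theorem interp : InterpStmt := by
  intro M4 ε hε
  set h : ℝ := min (1 / 10) (ε / (14 * (|M4| + 1))) with hh
  have hpos : 0 < h := lt_min (by norm_num) (by positivity)
  have h10 : h ≤ 1 / 10 := min_le_left _ _
  have hM : 7 * h * |M4| ≤ ε / 2 := by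
    have h1 : h ≤ ε / (14 * (|M4| + 1)) := min_le_right _ _
    rw [le_div_iff₀ (by positivity)] at h1
    nlinarith [abs_nonneg M4]
  set m : ℝ := min ε 1 with hm
  have hm0 : 0 < m := lt_min hε one_pos
  have hmε : m ≤ ε := min_le_left _ _
  refine ⟨m * h ^ 3 / 16, by positivity, fun u hu h0 h4 => ?_⟩
  have h3 : ∀ x, |u 3 x| ≤ ε := by
    intro x
    have := stepB u hu hpos h0 3 h4 x
    have e1 : (2 : ℝ) ^ 3 * (m * h ^ 3 / 16) / h ^ 3 = m / 2 := by
      field_simp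
      norm_num
    rw [e1] at this
    have e2 : ((2 : ℝ) ^ 3 - 1) * h * M4 ≤ 7 * h * |M4| := by
      have := mul_le_mul_of_nonneg_left (le_abs_self M4) (by positivity : (0 : ℝ) ≤ 7 * h)
      linarith
    linarith
  have h2 : ∀ x, |u 2 x| ≤ ε := by
    intro x
    have := stepB u hu hpos h0 2 h3 x
    have e1 : (2 : ℝ) ^ 2 * (m * h ^ 3 / 16) / h ^ 2 = m * h / 4 := by
      field_simp
      norm_num
    rw [e1] at this
    have e2 : m * h ≤ ε * (1 / 10) := mul_le_mul hmε h10 hpos.le hε.le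
    have e3 : h * ε ≤ (1 / 10) * ε := mul_le_mul_of_nonneg_right h10 hε.le
    linarith
  have h1 : ∀ x, |u 1 x| ≤ ε := by
    intro x
    have := stepB u hu hpos h0 1 h2 x
    have e1 : (2 : ℝ) ^ 1 * (m * h ^ 3 / 16) / h ^ 1 = m * h * h / 8 := by
      field_simp
      norm_num
    rw [e1] at this
    have e2 : m * h ≤ ε * (1 / 10) := mul_le_mul hmε h10 hpos.le hε.le
    have e3 : h * ε ≤ (1 / 10) * ε := mul_le_mul_of_nonneg_right h10 hε.le
    have e4 : m * h * h ≤ (ε * (1 / 10)) * (1 / 10) := mul_le_mul e2 h10 hpos.le (by positivity)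
    linarith
  intro j hj x
  have hc : j = 0 ∨ j = 1 ∨ j = 2 ∨ j = 3 := by omega
  rcases hc with rfl | rfl | rfl | rfl
  · refine (h0 x).trans ?_
    have e5 : h ^ 3 ≤ 1 := pow_le_one₀ hpos.le (by linarith)
    have e6 : m * h ^ 3 ≤ ε * 1 := mul_le_mul hmε e5 (by positivity) hε.le
    linarith
  · exact h1 x
  · exact h2 x
  · exact h3 x

end Pool.Agent.Lib.MP_c60e08_gt.Pde
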