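import Pool.Agent.Lib.MP_c60e08_gt.PdeSpec1

/-!
# MP_c60e08_gt, PDE part: `LipStmt`

Smooth periodic coefficients are Lipschitz in the second variable on bounded sets,
uniformly in the first variable.
-/

namespace Pool.Agent.Lib.MP_c60e08_gt.Pde

open Real Set Pool.Agent.Lib.MP_c60e08_gt.Lm

namespace Lip

theorem aux (f : ℝ → ℝ → ℝ → ℝ)
    (hf : ContDiff ℝ (⊤ : ℕ∞) (fun z : ℝ × ℝ × ℝ => f z.1 z.2.1 z.2.2))
    (hp : ∀ x y z, f (x + 2 * π) y z = f x y z) (M : ℝ) :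
    ∃ L ≥ 0, ∀ x y y' z, |y| ≤ M → |y'| ≤ M → |z| ≤ M →
      |f x y z - f x y' z| ≤ L * |y - y'| := by
  set F : ℝ × ℝ × ℝ → ℝ := fun z => f z.1 z.2.1 z.2.2 with hF
  set K : Set (ℝ × ℝ × ℝ) := Icc 0 (2 * π) ×ˢ (Icc (-M) M ×ˢ Icc (-M) M) with hK
  have hKc : IsCompact K := isCompact_Icc.prod (isCompact_Icc.prod isCompact_Icc)
  have hKv : Convex ℝ K := (convex_Icc _ _).prod ((convex_Icc _ _).prod (convex_Icc _ _))
  have hcont : Continuous (fderiv ℝ F) := hf.continuous_fderiv (by simp)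
  obtain ⟨C, hC⟩ := hKc.exists_bound_of_continuousOn hcont.continuousOn
  refine ⟨max C 0, le_max_right _ _, ?_⟩
  intro x y y' z hy hy' hz
  have hper : Function.Periodic f (2 * π) := by
    intro t
    funext u v
    exact hp t u v
  obtain ⟨x', hx', hfx⟩ := hper.exists_mem_Ico₀ Real.two_pi_pos x
  rw [hfx]
  have hdiff : ∀ p ∈ K, DifferentiableAt ℝ F p := fun p _ =>
    (hf.differentiable (by simp)) p
  have hb : ∀ p ∈ K, ‖fderiv ℝ F p‖ ≤ max C 0 := fun p hp => (hC p hp).trans (le_max_left _ _)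
  have h1 : (x', y, z) ∈ K := by
    refine ⟨⟨hx'.1, hx'.2.le⟩, ?_, ?_⟩
    · exact abs_le.mp hy
    · exact abs_le.mp hz
  have h2 : (x', y', z) ∈ K := by
    refine ⟨⟨hx'.1, hx'.2.le⟩, ?_, ?_⟩
    · exact abs_le.mp hy'
    · exact abs_le.mp hz
  have h3 := hKv.norm_image_sub_le_of_norm_fderiv_le hdiff hb h2 h1
  have h4 : ‖((x', y, z) : ℝ × ℝ × ℝ) - (x', y', z)‖ = |y - y'| := by
    simp [Prod.norm_def]
  rw [h4] at h3
  simpa [hF] using h3

end Lip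

theorem lipStmt : LipStmt := by
  intro a b hab M
  obtain ⟨L1, hL1, h1⟩ := Lip.aux a hab.sa hab.pa M
  obtain ⟨L2, hL2, h2⟩ := Lip.aux b hab.sb hab.pb M
  refine ⟨L1 + L2, by positivity, ?_⟩
  intro x y y' z hy hy' hz
  have e1 := h1 x y y' z hy hy' hz
  have e2 := h2 x y y' z hy hy' hz
  have h0 : 0 ≤ |y - y'| := abs_nonneg _
  constructor
  · nlinarith
  · nlinarith

end Pool.Agent.Lib.MP_c60e08_gt.Pde
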