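import Pool.Agent.Lib.MP_c60e08_gt.PdeSpec1

/-!
MP_c60e08_gt, module LOC: local existence of polar solutions.
-/

namespace Pool.Agent.Lib.MP_c60e08_gt.Pde

open Real Set Filter Topology Pool.Agent.Lib.MP_c60e08_gt.Lm

private theorem loc_cont_uu {s : Set (ℝ × ℝ)} {y : ℝ → ℝ → ℝ}
    (h : ContinuousOn (fun z : ℝ × ℝ => y z.1 z.2) s) :
    ContinuousOn (fun z : ℝ × ℝ => uu z.2 (y z.1 z.2)) s := by
  unfold uu
  fun_prop

theorem loc : Par2Stmt → PerStmt → UnifStmt → RegStmt → QCutStmt → QEvenStmt → QPolStmt →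
    LocStmt := by
  intro hpar hper hunif hreg hcut heven hpol y0 hsm hp0 hev hpos
  have hcont : Continuous y0 := hsm.continuous
  -- lower bound of `uu`
  obtain ⟨c, hc, hcle⟩ := (hunif 0 (fun _ x => uu x (y0 x))
    (loc_cont_uu (y := fun _ x => y0 x) (by fun_prop)) (by
      intro t ht x
      simp only [uu]
      rw [hp0 x, Real.cos_add_two_pi])).2.2 (fun t ht x => hpos x)
  have h00 : (0 : ℝ) ∈ Icc (0 : ℝ) 0 := ⟨le_rfl, le_rfl⟩
  have hc2 : 0 < c / 2 := by linarith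
  -- bounds of the derivatives
  have hd : ∀ m x, HasDerivAt (iteratedDeriv m y0) (iteratedDeriv (m + 1) y0 x) x := hper.2 y0 hsm
  have hperd : ∀ m x, iteratedDeriv m y0 (x + 2 * π) = iteratedDeriv m y0 x := by
    refine (hper.1 (fun m => iteratedDeriv m y0) hd).1 ?_
    intro x
    simpa [iteratedDeriv_zero] using hp0 x
  have hbd : ∀ m, ∃ M, ∀ x, |iteratedDeriv m y0 x| ≤ M := by
    intro m
    have hcm : Continuous (iteratedDeriv m y0) :=
      continuous_iff_continuousAt.2 fun x => (hd m x).continuousAt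
    obtain ⟨M, hM⟩ := (hunif 0 (fun _ x => iteratedDeriv m y0 x) (by fun_prop)
      (fun t ht x => hperd m x)).1
    exact ⟨M, fun x => hM 0 h00 x⟩
  choose M hM using hbd
  obtain ⟨hcoef, -, -⟩ := hreg (c / 2) hc2
  obtain ⟨τ, hτ, K, hK⟩ := hpar _ _ hcoef (max (max (M 0) (M 1)) (max (M 2) (M 3)))
  obtain ⟨y, hy, hy0, -, -⟩ := hK y0 hsm hp0 (by
    intro j hj x
    interval_cases j
    · exact (hM 0 x).trans ((le_max_left _ _).trans (le_max_left _ _))
    · exact (hM 1 x).trans ((le_max_right _ _).trans (le_max_left _ _))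
    · exact (hM 2 x).trans ((le_max_left _ _).trans (le_max_right _ _))
    · exact (hM 3 x).trans ((le_max_right _ _).trans (le_max_right _ _)))
  obtain ⟨δ, hδ, hδle⟩ := (hunif τ (fun t x => uu x (y 0 t x)) (loc_cont_uu (hy.cont 0)) (by
    intro t ht x
    simp only [uu]
    rw [hy.per t ht x, Real.cos_add_two_pi])).2.1 (c / 2) hc2
  have hT : 0 < min δ τ := lt_min hδ hτ
  have hyT := (hcut _ _ τ y hy).1 (min δ τ) (min_le_right _ _)
  refine ⟨min δ τ, hT, y, ?_, hy0⟩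
  refine hpol (min δ τ) (c / 2) y hc2 hyT ?_ ?_
  · intro t ht x
    have h1 := hδle 0 ⟨le_rfl, hτ.le⟩ t ⟨ht.1, ht.2.trans (min_le_right _ _)⟩ (by
      rw [sub_zero, abs_of_nonneg ht.1]
      exact ht.2.trans (min_le_left _ _)) x
    have h2 := hcle 0 h00 x
    rw [hy0 x] at h1
    have h3 := (abs_le.1 h1).1
    linarith
  · exact heven (min δ τ) (c / 2) y hc2 hyT (fun x => by rw [hy0, hy0, hev])

end Pool.Agent.Lib.MP_c60e08_gt.Pde
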