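import Pool.Agent.Lib.MP_c60e08_gt.PdeSpec1

/-!
# MP_c60e08, PDE part: the maximum principle
-/

namespace Pool.Agent.Lib.MP_c60e08_gt.Pde

open Real Set Filter Topology

/-- The parabolic maximum principle for periodic functions. -/
theorem maxStmt : MaxStmt := by
  intro T L δ D Dt hL hδ hc hper hder hmax h0 t ht x
  by_contra hcon
  push Not at hcon
  set F : ℝ × ℝ → ℝ := fun z => exp (-(L + 1) * z.1) * (D z.1 z.2 - δ * exp (L * z.1)) with hF
  have hFc : ContinuousOn F (Icc 0 T ×ˢ univ) := by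
    have h1 : Continuous (fun z : ℝ × ℝ => exp (-(L + 1) * z.1)) := by fun_prop
    have h2 : Continuous (fun z : ℝ × ℝ => δ * exp (L * z.1)) := by fun_prop
    exact h1.continuousOn.mul (hc.sub h2.continuousOn)
  have hcomp : IsCompact (Icc (0 : ℝ) T ×ˢ Icc (0 : ℝ) (2 * π)) := isCompact_Icc.prod isCompact_Icc
  have hne : (Icc (0 : ℝ) T ×ˢ Icc (0 : ℝ) (2 * π)).Nonempty :=
    ⟨(t, 0), ht, ⟨le_refl _, by positivity⟩⟩
  have hsub : Icc (0 : ℝ) T ×ˢ Icc (0 : ℝ) (2 * π) ⊆ Icc 0 T ×ˢ univ :=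
    prod_mono (subset_refl _) (subset_univ _)
  obtain ⟨z0, hz0, hmx⟩ := hcomp.exists_isMaxOn hne (hFc.mono hsub)
  obtain ⟨ht0, hx0⟩ := hz0
  obtain ⟨t0, x0⟩ := z0
  simp only at ht0 hx0
  have hmx' : ∀ s ∈ Icc 0 T, ∀ x', F (s, x') ≤ F (t0, x0) := by
    intro s hs x'
    have hp : Function.Periodic (D s) (2 * π) := fun y => hper s hs y
    obtain ⟨y, hy, hxy⟩ := hp.exists_mem_Ico₀ (by positivity) x'
    have h1 : F (s, x') = F (s, y) := by
      simp only [hF, hxy]
    rw [h1]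
    exact hmx ⟨hs, ⟨hy.1, hy.2.le⟩⟩
  have hpos : 0 < F (t0, x0) := by
    refine lt_of_lt_of_le ?_ (hmx' t ht x)
    simp only [hF]
    exact mul_pos (exp_pos _) (by linarith)
  have hD' : 0 < D t0 x0 - δ * exp (L * t0) := by
    simp only [hF] at hpos
    exact (pos_iff_pos_of_mul_pos hpos).1 (exp_pos _)
  have ht00 : t0 ≠ 0 := by
    intro h
    have := h0 x0
    rw [h] at hD'
    simp at hD'
    linarith
  have ht0pos : 0 < t0 := lt_of_le_of_ne ht0.1 (Ne.symm ht00)
  have hD0 : 0 < D t0 x0 := by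
    have := mul_nonneg hδ (exp_pos (L * t0)).le
    linarith
  have hglob : ∀ x', D t0 x' ≤ D t0 x0 := by
    intro x'
    have h1 := hmx' t0 ht0 x'
    simp only [hF] at h1
    have h2 := le_of_mul_le_mul_left h1 (exp_pos _)
    linarith
  have hDt := hmax t0 ht0 x0 hD0 hglob
  -- derivative of F in time
  have hexp1 : HasDerivWithinAt (fun s : ℝ => exp (-(L + 1) * s))
      (exp (-(L + 1) * t0) * (-(L + 1))) (Icc 0 T) t0 := by
    have h := ((hasDerivAt_id t0).const_mul (-(L + 1))).exp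
    simpa using h.hasDerivWithinAt
  have hexp2 : HasDerivWithinAt (fun s : ℝ => δ * exp (L * s))
      (δ * (exp (L * t0) * L)) (Icc 0 T) t0 := by
    have h := (((hasDerivAt_id t0).const_mul L).exp).const_mul δ
    simpa using h.hasDerivWithinAt
  have hE := hexp1.mul ((hder t0 ht0 x0).sub hexp2)
  set e : ℝ := exp (-(L + 1) * t0) * -(L + 1) * (D t0 x0 - δ * exp (L * t0)) +
    exp (-(L + 1) * t0) * (Dt t0 x0 - δ * (exp (L * t0) * L)) with he
  have hE1 : HasDerivWithinAt (fun s => F (s, x0)) e (Icc 0 T) t0 := by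
    exact hE
  have hneg : e < 0 := by
    have h1 : e = exp (-(L + 1) * t0) *
        ((Dt t0 x0 - L * D t0 x0) - (D t0 x0 - δ * exp (L * t0))) := by
      rw [he]; ring
    rw [h1]
    exact mul_neg_of_pos_of_neg (exp_pos _) (by linarith)
  have hE2 : HasDerivWithinAt (fun s => F (s, x0)) e (Ico 0 t0) t0 :=
    hE1.mono (fun s hs => ⟨hs.1, hs.2.le.trans ht0.2⟩)
  rw [hasDerivWithinAt_iff_tendsto_slope' (by simp)] at hE2
  have : NeBot (𝓝[Ico 0 t0] t0) := right_nhdsWithin_Ico_neBot ht0pos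
  have hge : 0 ≤ e := by
    refine ge_of_tendsto hE2 ?_
    refine eventually_nhdsWithin_of_forall fun s hs => ?_
    rw [slope_def_field]
    have h1 : F (s, x0) ≤ F (t0, x0) := hmx' s ⟨hs.1, hs.2.le.trans ht0.2⟩ x0
    exact div_nonneg_of_nonpos (by linarith) (by linarith [hs.2])
  linarith

end Pool.Agent.Lib.MP_c60e08_gt.Pde
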