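import Pool.Agent.Lib.MP_c60e08_gt.PdeSpec1

/-! Maximal solutions from local existence, extension and the maximal time. -/

namespace Pool.Agent.Lib.MP_c60e08_gt.Pde

open Real Set Pool.Agent.Lib.MP_c60e08_gt.Lm

theorem maxsol_main : MaxSolMainStmt := by
  intro hloc hext hsup y0 hs hp he hu
  obtain ⟨T, hT, hT1, ⟨y, hy, hy0⟩, hmax⟩ := hsup y0 (hloc y0 hs hp he hu)
  refine ⟨T, hT, hT1, y, hy, hy0, ?_⟩
  by_contra hcon
  push Not at hcon
  obtain ⟨hne, M, hM⟩ := hcon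
  obtain ⟨T', hT', y', hy', hy0'⟩ := hext T M y hT hy
    (fun j hj t ht x => by
      obtain ⟨h0, h1, h2, h3, _⟩ := hM t ht x
      interval_cases j <;> assumption)
    (fun t ht x => (hM t ht x).2.2.2.2)
  exact hmax (min T' 1) (lt_min hT' (lt_of_le_of_ne hT1 hne)) (min_le_right _ _)
    ⟨y', PolarSol_mono hy' (min_le_left _ _), fun p => (hy0' p).trans (hy0 p)⟩

end Pool.Agent.Lib.MP_c60e08_gt.Pde
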