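import Pool.Agent.Lib.MP_c60e08_gt.PdeSpec1

/-!
# MP_c60e08_gt, module Pde/Per
-/

namespace Pool.Agent.Lib.MP_c60e08_gt.Pde

open Real Set Pool.Agent.Lib.MP_c60e08_gt.Lm

namespace Per

theorem iter (u : ℕ → ℝ → ℝ) (hu : ∀ m x, HasDerivAt (u m) (u (m + 1) x) x) (m : ℕ) :
    iteratedDeriv m (u 0) = u m := by
  induction m with
  | zero => exact iteratedDeriv_zero
  | succ m ih =>
    rw [iteratedDeriv_succ, ih]
    funext x
    exact (hu m x).deriv

theorem period (u : ℕ → ℝ → ℝ) (hu : ∀ m x, HasDerivAt (u m) (u (m + 1) x) x)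
    (h0 : ∀ x, u 0 (x + 2 * π) = u 0 x) (m : ℕ) : ∀ x, u m (x + 2 * π) = u m x := by
  induction m with
  | zero => exact h0
  | succ m ih =>
    intro x
    have h1 : HasDerivAt (fun x => u m (x + 2 * π)) (u (m + 1) (x + 2 * π)) x :=
      (hu m (x + 2 * π)).comp_add_const x (2 * π)
    have h2 : (fun x => u m (x + 2 * π)) = u m := funext ih
    rw [h2] at h1
    exact h1.unique (hu m x)

theorem smooth (u : ℕ → ℝ → ℝ) (hu : ∀ m x, HasDerivAt (u m) (u (m + 1) x) x) :
    ContDiff ℝ (⊤ : ℕ∞) (u 0) := by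
  apply contDiff_of_differentiable_iteratedDeriv
  intro m _
  rw [iter u hu m]
  exact fun x => (hu m x).differentiableAt

end Per

theorem perStmt : PerStmt := by
  refine ⟨fun u hu => ⟨fun h0 m => Per.period u hu h0 m, Per.smooth u hu, Per.iter u hu,
    fun w hw h0 m x => ?_⟩, fun f hf m x => ?_⟩
  · have h1 : u 0 = w 0 := funext h0
    rw [← Per.iter u hu m, ← Per.iter w hw m, h1]
  · rw [iteratedDeriv_succ]
    exact ((hf.differentiable_iteratedDeriv m (by exact_mod_cast WithTop.coe_lt_top _)) x).hasDerivAt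

end Pool.Agent.Lib.MP_c60e08_gt.Pde
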