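import Pool.Agent.Lib.MP_c60e08_gt.PdeSpec1

/-!
MP_c60e08_gt, module POLQ: polar solutions solve the regularised equation.
-/

namespace Pool.Agent.Lib.MP_c60e08_gt.Pde

open Real Set Filter Topology Pool.Agent.Lib.MP_c60e08_gt.Lm

private theorem tend_aux {a : ℝ → ℝ → ℝ → ℝ} {x u v : ℝ} {f g : ℝ → ℝ} {l : Filter ℝ}
    (ha : Continuous fun z : ℝ × ℝ × ℝ => a z.1 z.2.1 z.2.2)
    (hf : Tendsto f l (𝓝 u)) (hg : Tendsto g l (𝓝 v)) :
    Tendsto (fun s => a x (f s) (g s)) l (𝓝 (a x u v)) := by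
  have hpair : Tendsto (fun s => ((x, f s, g s) : ℝ × ℝ × ℝ)) l (𝓝 (x, u, v)) :=
    tendsto_const_nhds.prodMk_nhds (hf.prodMk_nhds hg)
  exact (ha.tendsto (x, u, v)).comp hpair

theorem polq : UnifStmt → RegStmt → PolQStmt := by
  intro hunif hreg
  refine ⟨?_, ?_⟩
  · intro T t1 y hy ht1
    have hsub : Icc 0 t1 ⊆ Ico 0 T := fun t ht => ⟨ht.1, lt_of_le_of_lt ht.2 ht1⟩
    have hc : ContinuousOn (fun z : ℝ × ℝ => y 0 z.1 z.2) (Icc 0 t1 ×ˢ univ) :=
      (hy.cont 0).mono (prod_mono hsub subset_rfl)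
    have hcu : ContinuousOn (fun z : ℝ × ℝ => uu z.2 (y 0 z.1 z.2)) (Icc 0 t1 ×ˢ univ) := by
      unfold uu
      fun_prop
    refine (hunif t1 (fun t x => uu x (y 0 t x)) hcu ?_).2.2 ?_
    · intro t ht x
      simp only [uu]
      rw [hy.per t (hsub ht), Real.cos_add_two_pi]
    · intro t ht x
      exact hy.pos t (hsub ht) x
  · intro T t1 η y hy ht1 hη huu
    obtain ⟨hcoef, hphi, -⟩ := hreg η hη
    have hsub : Icc 0 t1 ⊆ Ico 0 T := fun t ht => ⟨ht.1, lt_of_le_of_lt ht.2 ht1⟩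
    -- the right hand sides agree
    have hrhs : ∀ t ∈ Icc 0 t1, ∀ p, fS (uu p (y 0 t p)) * exp (-(2 * y 0 t p)) *
        (y 2 t p / (1 + (y 1 t p) ^ 2) - 1) =
        aE η p (y 0 t p) (y 1 t p) * y 2 t p + bE η p (y 0 t p) (y 1 t p) := by
      intro t ht p
      have h2 := hphi _ (huu t ht p)
      unfold aE bE
      rw [h2]
      ring
    refine ⟨fun m => (hy.cont m).mono (prod_mono hsub subset_rfl),
      fun m t ht => hy.dx m t (hsub ht), ?_, fun t ht => hy.per t (hsub ht)⟩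
    intro t ht x
    rcases eq_or_lt_of_le ht.1 with h0 | h0
    · subst h0
      rcases eq_or_lt_of_le ht.2 with h1 | h1
      · subst h1
        rw [Icc_self]
        exact HasFDerivWithinAt.of_subsingleton subsingleton_singleton
      · have hT : 0 < T := h1.trans ht1
        have hcw : ∀ m, ContinuousWithinAt (fun s => y m s x) (Ico 0 T) 0 := by
          intro m
          have c0 := hy.cont m (0, x) ⟨⟨le_rfl, hT⟩, mem_univ _⟩
          have c1 : ContinuousWithinAt (fun s : ℝ => ((s, x) : ℝ × ℝ)) (Ico 0 T) 0 := by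
            fun_prop
          exact ContinuousWithinAt.comp (t := Ico 0 T ×ˢ univ) (x := (0 : ℝ))
            (f := fun s : ℝ => ((s, x) : ℝ × ℝ)) (g := fun z : ℝ × ℝ => y m z.1 z.2) c0 c1
            (fun s hs => ⟨hs, mem_univ _⟩)
        have hle : 𝓝[>] (0 : ℝ) ≤ 𝓝[Ico 0 T] 0 := by
          rw [← nhdsWithin_Ioo_eq_nhdsGT hT]
          exact nhdsWithin_mono _ Ioo_subset_Ico_self
        have hct : ∀ m, Tendsto (fun s => y m s x) (𝓝[>] 0) (𝓝 (y m 0 x)) :=
          fun m => (hcw m).mono_left hle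
        have hd : HasDerivWithinAt (fun s => y 0 s x)
            (aE η x (y 0 0 x) (y 1 0 x) * y 2 0 x + bE η x (y 0 0 x) (y 1 0 x)) (Ici 0) 0 := by
          refine hasDerivWithinAt_Ici_of_tendsto_deriv (s := Ioo 0 t1) ?_ ?_ ?_ ?_
          · intro s hs
            exact (hy.dt s ⟨hs.1, hs.2.trans ht1⟩ x).differentiableAt.differentiableWithinAt
          · exact (hcw 0).mono (fun s hs => ⟨hs.1.le, hs.2.trans ht1⟩)
          · exact Ioo_mem_nhdsGT h1
          · have hev : (fun s => aE η x (y 0 s x) (y 1 s x) * y 2 s x +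
                bE η x (y 0 s x) (y 1 s x)) =ᶠ[𝓝[>] 0] fun s => deriv (fun s => y 0 s x) s := by
              filter_upwards [Ioo_mem_nhdsGT h1] with s hs
              rw [(hy.dt s ⟨hs.1, hs.2.trans ht1⟩ x).deriv, hrhs s ⟨hs.1.le, hs.2.le⟩]
            refine Tendsto.congr' hev ?_
            have ha := tend_aux (x := x) hcoef.sa.continuous (hct 0) (hct 1)
            have hb := tend_aux (x := x) hcoef.sb.continuous (hct 0) (hct 1)
            exact (ha.mul (hct 2)).add hb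
        exact hd.mono (fun s hs => hs.1)
    · have h1 := (hy.dt t ⟨h0, lt_of_le_of_lt ht.2 ht1⟩ x).hasDerivWithinAt (s := Icc 0 t1)
      rw [hrhs t ht x] at h1
      exact h1

end Pool.Agent.Lib.MP_c60e08_gt.Pde
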