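import Pool.Agent.Lib.MP_c60e08_gt.PdeSpec2

/-!
# Joint regularity of polar solutions
-/

namespace Pool.Agent.Lib.MP_c60e08_gt.Pde

open Real Set Pool.Agent.Lib.MP_c60e08_gt.Lm

namespace PolSm

lemma locC {T : ℝ} {n : ℕ} {F : ℝ → ℝ → ℝ}
    (h : ∀ t1 < T, ContDiffOn ℝ n (fun z : ℝ × ℝ => F z.1 z.2) (Ioo 0 t1 ×ˢ univ)) :
    ContDiffOn ℝ n (fun z : ℝ × ℝ => F z.1 z.2) (Ioo 0 T ×ˢ univ) := by
  intro z hz
  have h1 : (z.1 + T) / 2 < T := by linarith [hz.1.2]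
  have h2 : z ∈ Ioo 0 ((z.1 + T) / 2) ×ˢ (univ : Set ℝ) :=
    ⟨⟨hz.1.1, by linarith [hz.1.2]⟩, trivial⟩
  exact ((h _ h1).contDiffAt ((isOpen_Ioo.prod isOpen_univ).mem_nhds h2)).contDiffWithinAt

lemma loc (T : ℝ) (n : ℕ) : ∀ (k : ℕ) (F : ℝ → ℝ → ℝ), (∀ t1 < T, XS (Ioo 0 t1) n k F) →
    XS (Ioo 0 T) n k F
  | 0, _, h => locC h
  | k + 1, _, h => ⟨locC (fun t1 ht1 => (h t1 ht1).1), fun t ht x =>
      (h ((t + T) / 2) (by linarith [ht.2])).2.1 t ⟨ht.1, by linarith [ht.2]⟩ x,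
      loc T n k _ (fun t1 ht1 => (h t1 ht1).2.2)⟩

end PolSm

theorem polSm : RegStmt → PolQStmt → XsAlgStmt → SmStmt → PolSmStmt := by
  intro hReg hPolQ hAlg hSm T y hy
  refine ⟨?_, ?_⟩
  · intro n k m
    apply PolSm.loc
    intro t1 ht1
    obtain ⟨η, hη, hu⟩ := hPolQ.1 T t1 y hy ht1
    exact hSm (aE η) (bE η) (hReg η hη).1 t1 y (hPolQ.2 T t1 η y hy ht1 hη hu) n k m
  · intro k
    have hc : ∀ m, ContDiffOn ℝ ((0 : ℕ) : WithTop ℕ∞) (fun z : ℝ × ℝ => y m z.1 z.2)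
        (Ico 0 T ×ˢ univ) := by
      intro m
      rw [Nat.cast_zero, contDiffOn_zero]
      exact hy.cont m
    induction k with
    | zero =>
      intro m
      exact hc m
    | succ k ih =>
      intro m
      exact (hAlg (Ico 0 T) 0).2.2.1 k (y m) (y (m + 1)) (hc m) (hy.dx m) (ih (m + 1))

end Pool.Agent.Lib.MP_c60e08_gt.Pde
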