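import Pool.Agent.Lib.MP_c60e08_gt.PdeSpec1

/-!
# Comparison of two solutions of a quasilinear periodic parabolic equation
-/

set_option autoImplicit false

namespace Pool.Agent.Lib.MP_c60e08_gt.Pde

open Real Set Pool.Agent.Lib.MP_c60e08_gt.Lm Filter Topology

namespace QComp

/-- second derivative test at a global maximum -/
theorem sdt {f f1 : ℝ → ℝ} {c x0 : ℝ} (hf : ∀ x, HasDerivAt f (f1 x) x)
    (h1 : HasDerivAt f1 c x0) (hmax : ∀ x, f x ≤ f x0) : f1 x0 = 0 ∧ c ≤ 0 := by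
  have hl : IsLocalMax f x0 := Filter.Eventually.of_forall hmax
  have e : f1 x0 = 0 := hl.hasDerivAt_eq_zero (hf x0)
  refine ⟨e, ?_⟩
  by_contra hc
  push Not at hc
  have hs := hasDerivAt_iff_tendsto_slope.1 h1
  have hev : ∀ᶠ x in 𝓝[≠] x0, 0 < slope f1 x0 x := hs.eventually (lt_mem_nhds hc)
  have hev2 : ∀ᶠ x in 𝓝[>] x0, 0 < slope f1 x0 x :=
    hev.filter_mono (nhdsWithin_mono _ (fun x hx => ne_of_gt hx))
  obtain ⟨u, hu, hu'⟩ := mem_nhdsGT_iff_exists_Ioo_subset.1 hev2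
  have hu : x0 < u := hu
  have hlt : x0 < (x0 + u) / 2 := by linarith
  obtain ⟨ξ, hξ, hξ'⟩ := exists_hasDerivAt_eq_slope f f1 hlt
    (fun y _ => (hf y).continuousAt.continuousWithinAt) (fun y _ => hf y)
  have hsl : 0 < slope f1 x0 ξ := hu' ⟨hξ.1, by linarith [hξ.2]⟩
  have hpos : 0 < f1 ξ := by
    rw [slope_def_field, e, sub_zero] at hsl
    have h2 : 0 < ξ - x0 := sub_pos.2 hξ.1
    have h3 := mul_pos hsl h2
    rwa [div_mul_cancel₀ _ h2.ne'] at h3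
  rw [hξ'] at hpos
  have h2 : 0 < (x0 + u) / 2 - x0 := sub_pos.2 hlt
  have h3 := mul_pos hpos h2
  rw [div_mul_cancel₀ _ h2.ne'] at h3
  linarith [hmax ((x0 + u) / 2)]

/-- the algebra at a maximum -/
theorem alg {A A' B B' y2 z2 L0 M d : ℝ} (hA' : 0 ≤ A') (hL0 : 0 ≤ L0) (hM : |y2| ≤ M)
    (hA : |A - A'| ≤ L0 * d) (hB : |B - B'| ≤ L0 * d) (hd : 0 ≤ d) (h2 : y2 ≤ z2) :
    (A * y2 + B) - (A' * z2 + B') ≤ (L0 * M + L0) * d := by
  have e1 : (A * y2 + B) - (A' * z2 + B') = (A - A') * y2 - A' * (z2 - y2) + (B - B') := by ring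
  have e2 : (A - A') * y2 ≤ L0 * d * M := by
    refine (le_abs_self _).trans ?_
    rw [abs_mul]
    exact mul_le_mul hA hM (abs_nonneg _) (by positivity)
  have e3 : 0 ≤ A' * (z2 - y2) := mul_nonneg hA' (by linarith)
  have e4 := (le_abs_self _).trans hB
  rw [e1]
  nlinarith

end QComp

open QComp in
theorem qcomp : LipStmt → MaxStmt → QCompStmt := by
  intro hLip hMax a b hc M
  obtain ⟨L0, hL0, hl⟩ := hLip a b hc |M|
  refine ⟨L0 * |M| + L0, by positivity, fun T δ y z hy hz hδ hyM hzM h0 => ?_⟩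
  have hL : 0 ≤ L0 * |M| + L0 := by positivity
  have c0 : ContinuousOn (fun w : ℝ × ℝ => y 0 w.1 w.2 - z 0 w.1 w.2) (Icc 0 T ×ˢ univ) :=
    (hy.cont 0).sub (hz.cont 0)
  have c1 : ContinuousOn (fun w : ℝ × ℝ => z 0 w.1 w.2 - y 0 w.1 w.2) (Icc 0 T ×ˢ univ) :=
    (hz.cont 0).sub (hy.cont 0)
  have b0 : ∀ t ∈ Icc 0 T, ∀ x, |y 0 t x| ≤ |M| := fun t ht x =>
    (hyM 0 (by norm_num) t ht x).trans (le_abs_self _)
  have b1 : ∀ t ∈ Icc 0 T, ∀ x, |y 1 t x| ≤ |M| := fun t ht x =>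
    (hyM 1 (by norm_num) t ht x).trans (le_abs_self _)
  have b2 : ∀ t ∈ Icc 0 T, ∀ x, |y 2 t x| ≤ |M| := fun t ht x =>
    (hyM 2 le_rfl t ht x).trans (le_abs_self _)
  have bz : ∀ t ∈ Icc 0 T, ∀ x, |z 0 t x| ≤ |M| := fun t ht x =>
    (hzM t ht x).trans (le_abs_self _)
  have h1 := hMax T (L0 * |M| + L0) δ (fun t x => y 0 t x - z 0 t x)
    (fun t x => (a x (y 0 t x) (y 1 t x) * y 2 t x + b x (y 0 t x) (y 1 t x)) -
      (a x (z 0 t x) (z 1 t x) * z 2 t x + b x (z 0 t x) (z 1 t x))) hL hδ c0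
    (fun t ht x => by rw [hy.per t ht x, hz.per t ht x])
    (fun t ht x => (hy.dt t ht x).sub (hz.dt t ht x))
    (fun t ht x hpos hmax => by
      obtain ⟨e1, e2⟩ := sdt (f := fun x => y 0 t x - z 0 t x) (f1 := fun x => y 1 t x - z 1 t x)
        (c := y 2 t x - z 2 t x) (x0 := x) (fun x => (hy.dx 0 t ht x).sub (hz.dx 0 t ht x))
        ((hy.dx 1 t ht x).sub (hz.dx 1 t ht x)) hmax
      have e1' : z 1 t x = y 1 t x := by
        linarith
      obtain ⟨l1, l2⟩ := hl x (y 0 t x) (z 0 t x) (y 1 t x) (b0 t ht x) (bz t ht x) (b1 t ht x)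
      rw [abs_of_pos hpos] at l1 l2
      rw [e1']
      exact alg (hc.pos _ _ _).le hL0 (b2 t ht x) l1 l2 hpos.le (by linarith))
    (fun x => (le_abs_self _).trans (h0 x))
  have h2 := hMax T (L0 * |M| + L0) δ (fun t x => z 0 t x - y 0 t x)
    (fun t x => (a x (z 0 t x) (z 1 t x) * z 2 t x + b x (z 0 t x) (z 1 t x)) -
      (a x (y 0 t x) (y 1 t x) * y 2 t x + b x (y 0 t x) (y 1 t x))) hL hδ c1
    (fun t ht x => by rw [hy.per t ht x, hz.per t ht x])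
    (fun t ht x => (hz.dt t ht x).sub (hy.dt t ht x))
    (fun t ht x hpos hmax => by
      obtain ⟨e1, e2⟩ := sdt (f := fun x => z 0 t x - y 0 t x) (f1 := fun x => z 1 t x - y 1 t x)
        (c := z 2 t x - y 2 t x) (x0 := x) (fun x => (hz.dx 0 t ht x).sub (hy.dx 0 t ht x))
        ((hz.dx 1 t ht x).sub (hy.dx 1 t ht x)) hmax
      have e1' : z 1 t x = y 1 t x := by
        linarith
      obtain ⟨l1, l2⟩ := hl x (y 0 t x) (z 0 t x) (y 1 t x) (b0 t ht x) (bz t ht x) (b1 t ht x)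
      rw [abs_sub_comm (y 0 t x), abs_of_pos hpos] at l1 l2
      rw [e1']
      have h3 := alg (M := |M|) (A := a x (y 0 t x) (y 1 t x)) (A' := a x (z 0 t x) (y 1 t x))
        (B := b x (z 0 t x) (y 1 t x)) (B' := b x (y 0 t x) (y 1 t x)) (y2 := -y 2 t x)
        (z2 := -z 2 t x) (hc.pos _ _ _).le hL0 (by rw [abs_neg]; exact b2 t ht x) l1
        (by rw [abs_sub_comm]; exact l2) hpos.le (by linarith)
      linarith)
    (fun x => (le_abs_self _).trans (by rw [abs_sub_comm]; exact h0 x))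
  intro t ht x
  rw [abs_le]
  have e1 := h1 t ht x
  have e2 := h2 t ht x
  constructor <;> linarith

end Pool.Agent.Lib.MP_c60e08_gt.Pde
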