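import Pool.Agent.Lib.MP_c60e08_gt.PdeSpec1

/-!
MP_c60e08_gt, module QCUT: restriction and time shift.
-/

namespace Pool.Agent.Lib.MP_c60e08_gt.Pde

open Real Set Pool.Agent.Lib.MP_c60e08_gt.Lm

theorem qcut : QCutStmt := by
  intro a b T y hy
  refine ⟨?_, ?_⟩
  · intro T' hT'
    have hsub : Icc 0 T' ⊆ Icc 0 T := Icc_subset_Icc_right hT'
    exact ⟨fun m => (hy.cont m).mono (prod_mono hsub subset_rfl),
      fun m t ht => hy.dx m t (hsub ht),
      fun t ht x => (hy.dt t (hsub ht) x).mono hsub,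
      fun t ht => hy.per t (hsub ht)⟩
  · intro s hs
    have hmaps : MapsTo (fun t => s + t) (Icc 0 (T - s)) (Icc 0 T) := by
      intro t ht
      exact ⟨add_nonneg hs.1 ht.1, by linarith [ht.2]⟩
    refine ⟨?_, ?_, ?_, ?_⟩
    · intro m
      have h2 : ContinuousOn (fun z : ℝ × ℝ => ((s + z.1, z.2) : ℝ × ℝ))
          (Icc 0 (T - s) ×ˢ univ) := by
        fun_prop
      exact (hy.cont m).comp h2 (fun z hz => ⟨hmaps hz.1, mem_univ _⟩)
    · intro m t ht x
      exact hy.dx m (s + t) (hmaps ht) x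
    · intro t ht x
      have h1 := hy.dt (s + t) (hmaps ht) x
      have h2 : HasDerivWithinAt (fun t => s + t) 1 (Icc 0 (T - s)) t :=
        ((hasDerivAt_id t).const_add s).hasDerivWithinAt
      have h3 := HasDerivWithinAt.comp t h1 h2 hmaps
      rw [mul_one] at h3
      exact h3
    · intro t ht x
      exact hy.per (s + t) (hmaps ht) x

end Pool.Agent.Lib.MP_c60e08_gt.Pde
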