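import Pool.Agent.Lib.MP_c60e08_gt.PdeSpec1

/-!
MP_c60e08_gt, module QEVEN: even data give even solutions.
-/

namespace Pool.Agent.Lib.MP_c60e08_gt.Pde

open Real Set Pool.Agent.Lib.MP_c60e08_gt.Lm

theorem qeven : RegStmt → QUniqStmt → QEvenStmt := by
  intro hreg huniq T η y hη hy hev t ht x
  obtain ⟨hcoef, -, hsym⟩ := hreg η hη
  have hz : QSol (aE η) (bE η) T (fun m t x => (-1 : ℝ) ^ m * y m t (-x)) := by
    refine ⟨?_, ?_, ?_, ?_⟩
    · intro m
      have h1 : ContinuousOn (fun z : ℝ × ℝ => y m z.1 (-z.2)) (Icc 0 T ×ˢ univ) := by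
        have h2 : ContinuousOn (fun z : ℝ × ℝ => ((z.1, -z.2) : ℝ × ℝ)) (Icc 0 T ×ˢ univ) := by
          fun_prop
        have h3 := (hy.cont m).comp h2 (fun z hz => ⟨hz.1, mem_univ _⟩)
        exact h3
      exact continuousOn_const.mul h1
    · intro m t ht x
      have h1 := hy.dx m t ht (-x)
      have h2 : HasDerivAt (fun x => y m t (-x)) (y (m + 1) t (-x) * (-1)) x :=
        h1.comp x (hasDerivAt_neg x)
      have h3 := h2.const_mul ((-1 : ℝ) ^ m)
      have e : (-1 : ℝ) ^ (m + 1) * y (m + 1) t (-x) = (-1 : ℝ) ^ m * (y (m + 1) t (-x) * -1) := by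
        rw [pow_succ]
        ring
      show HasDerivAt (fun x => (-1 : ℝ) ^ m * y m t (-x)) ((-1 : ℝ) ^ (m + 1) * y (m + 1) t (-x)) x
      rw [e]
      exact h3
    · intro t ht x
      have h1 := hy.dt t ht (-x)
      have h2 := hsym x (y 0 t (-x)) (-(y 1 t (-x)))
      rw [neg_neg] at h2
      rw [h2.1, h2.2] at h1
      simpa using h1
    · intro t ht x
      have h1 := hy.per t ht (-x - 2 * π)
      simp only [pow_zero, one_mul]
      rw [show -x - 2 * π + 2 * π = -x by ring] at h1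
      rw [show -(x + 2 * π) = -x - 2 * π by ring]
      exact h1.symm
  have h := huniq (aE η) (bE η) hcoef T _ y hz hy (by
    intro x
    simpa using hev x) t ht 0 x
  simpa using h

end Pool.Agent.Lib.MP_c60e08_gt.Pde
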