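import Pool.Agent.Lib.MP_c60e08_gt.PdeSpec1

/-! Gluing of two solutions at a time. -/

namespace Pool.Agent.Lib.MP_c60e08_gt.Pde

open Real Set Pool.Agent.Lib.MP_c60e08_gt.Lm

theorem qglue : PerStmt → QGlueStmt := by
  intro hPer a b T1 T2 y z hT1 hT2 hy hz h0
  have h0T1 : (T1 : ℝ) ∈ Icc 0 T1 := ⟨hT1, le_rfl⟩
  have h0T2 : (0 : ℝ) ∈ Icc 0 T2 := ⟨le_rfl, hT2⟩
  have hz0 : ∀ m x, z m 0 x = y m T1 x :=
    (hPer.1 (fun m => z m 0) (fun m x => hz.dx m 0 h0T2 x)).2.2.2 (fun m => y m T1)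
      (fun m x => hy.dx m T1 h0T1 x) h0
  have hl : ∀ m t, t ≤ T1 → glue T1 y z m t = y m t := fun m t ht => by
    funext x
    simp only [glue, if_pos ht]
  have hr : ∀ m t, T1 ≤ t → glue T1 y z m t = z m (t - T1) := fun m t ht => by
    funext x
    rcases eq_or_lt_of_le ht with h | h
    · subst h
      simp only [glue, le_refl, if_true, sub_self]
      exact (hz0 m x).symm
    · simp only [glue, if_neg (not_le.mpr h)]
  have hun : Icc (0 : ℝ) (T1 + T2) = Icc 0 T1 ∪ Icc T1 (T1 + T2) :=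
    (Icc_union_Icc_eq_Icc hT1 (by linarith)).symm
  refine ⟨fun m => ?_, fun m t ht x => ?_, fun t ht x => ?_, fun t ht x => ?_⟩
  · rw [hun, union_prod]
    refine ContinuousOn.union_of_isClosed ?_ ?_ (isClosed_Icc.prod isClosed_univ)
      (isClosed_Icc.prod isClosed_univ)
    · refine (hy.cont m).congr fun w hw => ?_
      exact congrFun (hl m w.1 hw.1.2) w.2
    · have h1 : ContinuousOn (fun w : ℝ × ℝ => z m (w.1 - T1) w.2)
          (Icc T1 (T1 + T2) ×ˢ univ) := by
        refine (hz.cont m).comp (f := fun w : ℝ × ℝ => (w.1 - T1, w.2))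
          (by fun_prop) ?_
        intro w hw
        exact ⟨⟨by linarith [hw.1.1], by linarith [hw.1.2]⟩, mem_univ _⟩
      refine h1.congr fun w hw => ?_
      exact congrFun (hr m w.1 hw.1.1) w.2
  · rcases le_total t T1 with h | h
    · rw [hl m t h, hl (m + 1) t h]
      exact hy.dx m t ⟨ht.1, h⟩ x
    · rw [hr m t h, hr (m + 1) t h]
      exact hz.dx m (t - T1) ⟨by linarith, by linarith [ht.2]⟩ x
  · rw [hun]
    refine HasDerivWithinAt.union ?_ ?_
    · rcases le_or_gt t T1 with h | h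
      · rw [hl 0 t h, hl 1 t h, hl 2 t h]
        exact (hy.dt t ⟨ht.1, h⟩ x).congr (fun s hs => congrFun (hl 0 s hs.2) x)
          (congrFun (hl 0 t h) x)
      · refine HasFDerivWithinAt.of_notMem_closure ?_
        rw [isClosed_Icc.closure_eq]
        exact fun h' => absurd h'.2 (not_le.mpr h)
    · rcases le_or_gt T1 t with h | h
      · rw [hr 0 t h, hr 1 t h, hr 2 t h]
        have h1 := hz.dt (t - T1) ⟨by linarith, by linarith [ht.2]⟩ x
        have h2 : HasDerivWithinAt (fun s : ℝ => s - T1) 1 (Icc T1 (T1 + T2)) t :=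
          ((hasDerivAt_id t).sub_const T1).hasDerivWithinAt
        have h3 := HasDerivWithinAt.comp (h₂ := fun s => z 0 s x) (h := fun s : ℝ => s - T1)
          t h1 h2 (fun s hs => ⟨by linarith [hs.1], by linarith [hs.2]⟩)
        rw [mul_one] at h3
        exact h3.congr (fun s hs => congrFun (hr 0 s hs.1) x) (congrFun (hr 0 t h) x)
      · refine HasFDerivWithinAt.of_notMem_closure ?_
        rw [isClosed_Icc.closure_eq]
        exact fun h' => absurd h'.1 (not_le.mpr h)
  · rcases le_total t T1 with h | h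
    · rw [hl 0 t h]
      exact hy.per t ⟨ht.1, h⟩ x
    · rw [hr 0 t h]
      exact hz.per (t - T1) ⟨by linarith, by linarith [ht.2]⟩ x

end Pool.Agent.Lib.MP_c60e08_gt.Pde
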