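import Pool.Agent.Lib.MP_c60e08_gt.PdeSpec1

/-!
MP_c60e08_gt, module QPOL: from the regularised equation to polar solutions.
-/

namespace Pool.Agent.Lib.MP_c60e08_gt.Pde

open Real Set Pool.Agent.Lib.MP_c60e08_gt.Lm

theorem qpol : RegStmt → QPolStmt := by
  intro hreg T η y hη hy huu hev
  obtain ⟨hcoef, hphi, -⟩ := hreg η hη
  have hsub : Ico 0 T ⊆ Icc 0 T := Ico_subset_Icc_self
  refine ⟨?_, ?_, ?_, ?_, ?_, ?_⟩
  · intro m
    exact (hy.cont m).mono (prod_mono hsub subset_rfl)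
  · intro m t ht
    exact hy.dx m t (hsub ht)
  · intro t ht p
    have h1 := (hy.dt t (Ioo_subset_Icc_self ht) p).hasDerivAt (Icc_mem_nhds ht.1 ht.2)
    have h2 := hphi _ (huu t (Ioo_subset_Icc_self ht) p)
    have e : fS (uu p (y 0 t p)) * exp (-(2 * y 0 t p)) *
        (y 2 t p / (1 + (y 1 t p) ^ 2) - 1) =
        aE η p (y 0 t p) (y 1 t p) * y 2 t p + bE η p (y 0 t p) (y 1 t p) := by
      unfold aE bE
      rw [h2]
      ring
    rw [e]
    exact h1
  · intro t ht
    exact hy.per t (hsub ht)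
  · intro t ht
    exact hev t (hsub ht)
  · intro t ht p
    exact lt_of_lt_of_le hη (huu t (hsub ht) p)

end Pool.Agent.Lib.MP_c60e08_gt.Pde
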