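import Pool.Agent.Lib.MP_c60e08_gt.PdeSpec1

/-!
# MP_c60e08_gt, PDE part: stability of solutions (statement `QStabStmt`)
-/

namespace Pool.Agent.Lib.MP_c60e08_gt.Pde

open Real Set Pool.Agent.Lib.MP_c60e08_gt.Lm

namespace QStab

/-- stability at time zero -/
theorem st_zero (hper : PerStmt) (a b : ℝ → ℝ → ℝ → ℝ) (y : ℕ → ℝ → ℝ → ℝ) : St a b y 0 := by
  intro M4
  refine ⟨M4, fun η hη => ⟨η, hη, fun z0 hz0 hz0p hδ hM => ?_⟩⟩
  refine ⟨fun m _ x => iteratedDeriv m z0 x, ?_, ?_, ?_, ?_⟩
  · refine ⟨?_, ?_, ?_, ?_⟩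
    · intro m
      have h1 : Continuous (iteratedDeriv m z0) :=
        hz0.continuous_iteratedDeriv m (by exact_mod_cast le_top)
      exact (h1.comp continuous_snd).continuousOn
    · intro m t _ x
      exact hper.2 z0 hz0 m x
    · intro t ht x
      have ht0 : t = 0 := le_antisymm ht.2 ht.1
      subst ht0
      rw [Icc_self]
      have h2 : HasDerivWithinAt (fun _ : ℝ => iteratedDeriv 0 z0 x)
          (a x (iteratedDeriv 0 z0 x) (iteratedDeriv 1 z0 x) * iteratedDeriv 2 z0 x
            + b x (iteratedDeriv 0 z0 x) (iteratedDeriv 1 z0 x)) ({0} \ {0}) 0 := by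
        rw [Set.sdiff_self]
        simp [hasDerivWithinAt_iff_hasFDerivWithinAt, HasFDerivWithinAt.empty]
      exact hasDerivWithinAt_sdiff_singleton.mp h2
    · intro t _ x
      simp only [iteratedDeriv_zero]
      exact hz0p x
  · intro x
    simp only [iteratedDeriv_zero]
  · intro t ht x
    have ht0 : t = 0 := le_antisymm ht.2 ht.1
    subst ht0
    simp only [iteratedDeriv_zero]
    exact hδ x
  · intro t _ x
    exact hM x

end QStab

theorem qstab : PerStmt → StepStmt → QStabStmt := by
  intro hper hstep a b hab T y hT hy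
  obtain ⟨τ, hτ, hs⟩ := hstep a b hab T y hT hy
  have key : ∀ n : ℕ, St a b y (min (n * τ) T) := by
    intro n
    induction n with
    | zero =>
      have : min (((0 : ℕ) : ℝ) * τ) T = 0 := by
        rw [Nat.cast_zero, zero_mul]
        exact min_eq_left hT
      rw [this]
      exact QStab.st_zero hper a b y
    | succ n ih =>
      have h0 : 0 ≤ (n : ℝ) * τ := by positivity
      have h1 : ((n + 1 : ℕ) : ℝ) * τ = n * τ + τ := by
        push_cast
        ring
      refine hs (min (n * τ) T) ⟨le_min h0 hT, min_le_right _ _⟩ _ ⟨?_, min_le_right _ _⟩ ?_ ih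
      · rw [h1]
        exact min_le_min_right T (by linarith)
      · rw [h1, ← min_add_add_right]
        exact min_le_min_left _ (by linarith)
  obtain ⟨n, hn⟩ := exists_nat_ge (T / τ)
  have h2 : T ≤ n * τ := by
    rwa [div_le_iff₀ hτ] at hn
  have h3 := key n
  rwa [min_eq_right h2] at h3

end Pool.Agent.Lib.MP_c60e08_gt.Pde
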