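import Pool.Agent.Lib.MP_c60e08_gt.PdeSpec1

/-!
MP_c60e08_gt, module QUNIQ: uniqueness for periodic quasilinear parabolic equations.
-/

namespace Pool.Agent.Lib.MP_c60e08_gt.Pde

open Real Set Pool.Agent.Lib.MP_c60e08_gt.Lm

theorem quniq : PerStmt → UnifStmt → QCompStmt → QUniqStmt := by
  intro hper hunif hcomp a b hab T y z hy hz h0 t ht m x
  have hyp : ∀ m, ∀ t ∈ Icc 0 T, ∀ x, y m t (x + 2 * π) = y m t x := by
    intro m t ht x
    exact (hper.1 (fun m => y m t) (fun m x => hy.dx m t ht x)).1 (hy.per t ht) m x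
  obtain ⟨M0, hM0⟩ := (hunif T (y 0) (hy.cont 0) (hyp 0)).1
  obtain ⟨M1, hM1⟩ := (hunif T (y 1) (hy.cont 1) (hyp 1)).1
  obtain ⟨M2, hM2⟩ := (hunif T (y 2) (hy.cont 2) (hyp 2)).1
  obtain ⟨M3, hM3⟩ := (hunif T (z 0) (hz.cont 0) hz.per).1
  obtain ⟨L, -, hL⟩ := hcomp a b hab (max (max M0 M1) (max M2 M3))
  have key : ∀ t ∈ Icc 0 T, ∀ x, y 0 t x = z 0 t x := by
    intro t ht x
    have h1 := hL T 0 y z hy hz le_rfl (by
      intro j hj t ht x
      interval_cases j
      · exact (hM0 t ht x).trans ((le_max_left _ _).trans (le_max_left _ _))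
      · exact (hM1 t ht x).trans ((le_max_right _ _).trans (le_max_left _ _))
      · exact (hM2 t ht x).trans ((le_max_left _ _).trans (le_max_right _ _)))
      (fun t ht x => (hM3 t ht x).trans ((le_max_right _ _).trans (le_max_right _ _)))
      (fun x => by rw [h0 x, sub_self, abs_zero]) t ht x
    rw [zero_mul] at h1
    exact sub_eq_zero.1 (abs_nonpos_iff.1 h1)
  exact (hper.1 (fun m => y m t) (fun m x => hy.dx m t ht x)).2.2.2 (fun m => z m t)
    (fun m x => hz.dx m t ht x) (key t ht) m x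

end Pool.Agent.Lib.MP_c60e08_gt.Pde
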