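import Pool.Agent.Lib.MP_c60e08_gt.PdeSpec1

/-!
Module REG: the regularised coefficients of the polar equation.
-/

namespace Pool.Agent.Lib.MP_c60e08_gt.Pde

open Real Set Filter Topology Pool.Agent.Lib.MP_c60e08_gt.Lm

namespace Reg

theorem phiE_contDiff {η : ℝ} (hη : 0 < η) : ContDiff ℝ (⊤ : ℕ∞) (phiE η) := by
  rw [contDiff_iff_contDiffAt]
  intro u
  by_cases hu : u = 0
  · have hev : phiE η =ᶠ[𝓝 u] fun _ => (1 : ℝ) := by
      have : ∀ᶠ v in 𝓝 u, v < η / 2 := by
        apply Iio_mem_nhds
        rw [hu]; linarith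
      filter_upwards [this] with v hv
      have h0 : smoothTransition (2 * v / η - 1) = 0 := by
        apply smoothTransition.zero_of_nonpos
        have : 2 * v / η ≤ 1 := by
          rw [div_le_one hη]; linarith
        linarith
      simp only [phiE, h0]
      ring
    exact contDiffAt_const.congr_of_eventuallyEq hev
  · have h1 : ContDiffAt ℝ (⊤ : ℕ∞) (fun u : ℝ => smoothTransition (2 * u / η - 1)) u := by
      apply ContDiff.contDiffAt
      apply smoothTransition.contDiff.comp
      fun_prop
    have h2 : ContDiffAt ℝ (⊤ : ℕ∞) (fun u : ℝ => u ^ ((2 : ℝ) / 3)) u :=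
      contDiffAt_rpow_const_of_ne hu
    exact (h1.mul h2).add (contDiffAt_const.sub h1)

theorem phiE_pos {η : ℝ} (hη : 0 < η) (u : ℝ) : 0 < phiE η u := by
  rcases le_or_gt u (η / 2) with h | h
  · have h0 : smoothTransition (2 * u / η - 1) = 0 := by
      apply smoothTransition.zero_of_nonpos
      have : 2 * u / η ≤ 1 := by
        rw [div_le_one hη]; linarith
      linarith
    simp only [phiE, h0]
    norm_num
  · have hu : 0 < u := by linarith
    have hp : 0 < u ^ ((2 : ℝ) / 3) := Real.rpow_pos_of_pos hu _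
    have h0 := smoothTransition.nonneg (2 * u / η - 1)
    have h1 := smoothTransition.le_one (2 * u / η - 1)
    have h2 : 0 < 2 * u / η - 1 := by
      have : 1 < 2 * u / η := by
        rw [one_lt_div hη]; linarith
      linarith
    have h3 := smoothTransition.pos_of_pos h2
    simp only [phiE]
    have := mul_pos h3 hp
    linarith

theorem phiE_ge {η : ℝ} (hη : 0 < η) {u : ℝ} (hu : η ≤ u) : 3 * phiE η u = fS u := by
  have h1 : smoothTransition (2 * u / η - 1) = 1 := by
    apply smoothTransition.one_of_one_le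
    have : 2 ≤ 2 * u / η := by
      rw [le_div_iff₀ hη]; linarith
    linarith
  simp only [phiE, h1, fS]
  ring

theorem uu_contDiff : ContDiff ℝ (⊤ : ℕ∞) (fun z : ℝ × ℝ × ℝ => uu z.1 z.2.1) := by
  unfold uu
  fun_prop

end Reg

open Reg in
theorem regStmt : RegStmt := by
  intro η hη
  have hphi : ContDiff ℝ (⊤ : ℕ∞) (fun z : ℝ × ℝ × ℝ => phiE η (uu z.1 z.2.1)) :=
    (phiE_contDiff hη).comp uu_contDiff
  refine ⟨?_, fun u hu => phiE_ge hη hu, fun x y z => ⟨?_, ?_⟩⟩
  · refine { sa := ?_, sb := ?_, pa := ?_, pb := ?_, pos := ?_ }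
    · unfold aE
      apply ContDiff.div
      · exact (contDiff_const.mul hphi).mul (by fun_prop)
      · fun_prop
      · intro z
        positivity
    · unfold bE
      exact ((contDiff_const.mul hphi).mul (by fun_prop)).neg
    · intro x y z
      simp only [aE, uu, Real.cos_add_two_pi]
    · intro x y z
      simp only [bE, uu, Real.cos_add_two_pi]
    · intro x y z
      unfold aE
      have := phiE_pos hη (uu x y)
      positivity
  · simp only [aE, uu, Real.cos_neg]
    ring
  · simp only [bE, uu, Real.cos_neg]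

end Pool.Agent.Lib.MP_c60e08_gt.Pde
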