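import Pool.Agent.Lib.MP_c60e08_gt.PdeSpec2

/-!
MP_c60e08_gt, module SM: joint smoothness of solutions.
-/

set_option autoImplicit false

namespace Pool.Agent.Lib.MP_c60e08_gt.Pde

open Real Set Pool.Agent.Lib.MP_c60e08_gt.Lm

namespace Sm

theorem xs_iter {S : Set ℝ} {n : ℕ} {F : ℝ → ℝ → ℝ} (hF : ∀ k, XS S n k F) (m : ℕ) :
    ∀ k, XS S n k (fun t x => iteratedDeriv m (F t) x) := by
  induction m with
  | zero =>
    intro k
    simpa only [iteratedDeriv_zero] using hF k
  | succ m ih =>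
    intro k
    have h := (ih (k + 1)).2.2
    simpa only [iteratedDeriv_succ] using h

theorem xs_zero {S : Set ℝ} {n : ℕ} {F : ℝ → ℝ → ℝ} (hF : XS S n 0 F) :
    ContDiffOn ℝ n (fun z : ℝ × ℝ => F z.1 z.2) (S ×ˢ univ) := hF

end Sm

theorem sm : Geo.PartStmt → XsAlgStmt → XsCompStmt → TDStmt → SmStmt := by
  intro hPart hAlg hComp hTD a b hab T y hy
  have hsub : Ioo 0 T ⊆ Icc 0 T := Ioo_subset_Icc_self
  -- from joint regularity of all `y m` to `XS`
  have stepA : ∀ n : ℕ, (∀ m, ContDiffOn ℝ n (fun z : ℝ × ℝ => y m z.1 z.2) (Ioo 0 T ×ˢ univ)) →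
      ∀ k m, XS (Ioo 0 T) n k (y m) := by
    intro n hn k
    induction k with
    | zero => intro m; exact hn m
    | succ k ih =>
      intro m
      exact (hAlg (Ioo 0 T) n).2.2.1 k (y m) (y (m + 1)) (hn m)
        (fun t ht x => hy.dx m t (hsub ht) x) (ih (m + 1))
  have main : ∀ n : ℕ, ∀ m, ContDiffOn ℝ n (fun z : ℝ × ℝ => y m z.1 z.2) (Ioo 0 T ×ˢ univ) := by
    intro n
    induction n with
    | zero =>
      intro m
      have h := (hy.cont m).mono (Set.prod_mono hsub (Set.Subset.refl (univ : Set ℝ)))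
      exact_mod_cast contDiffOn_zero.2 h
    | succ n ih =>
      intro m
      have hXS := stepA n ih
      obtain ⟨-, -, -, -, hx, hadd, hmul, -⟩ := hAlg (Ioo 0 T) n
      have hrhs : ∀ k, XS (Ioo 0 T) n k (rhsQ a b y) := by
        intro k
        have ha := hComp.1 (Ioo 0 T) n k univ (fun z => a z.1 z.2.1 z.2.2) (fun _ x => x) (y 0) (y 1)
          isOpen_univ hab.sa.contDiffOn (hx k) (hXS k 0) (hXS k 1) (fun _ _ _ => mem_univ _)
        have hb := hComp.1 (Ioo 0 T) n k univ (fun z => b z.1 z.2.1 z.2.2) (fun _ x => x) (y 0) (y 1)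
          isOpen_univ hab.sb.contDiffOn (hx k) (hXS k 0) (hXS k 1) (fun _ _ _ => mem_univ _)
        exact hadd k _ _ (hmul k _ _ ha (hXS k 2)) hb
      have hG : Geo.CS n 0 T (fun t x => iteratedDeriv m (rhsQ a b y t) x) :=
        Sm.xs_zero (Sm.xs_iter hrhs m 0)
      exact hPart 0 T n (y m) _ (y (m + 1)) (fun t ht x => hTD a b hab T y hy m t ht x)
        (fun t ht x => hy.dx m t (hsub ht) x) hG (ih (m + 1))
  exact fun n k m => stepA n (main n) k m

end Pool.Agent.Lib.MP_c60e08_gt.Pde
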