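import Pool.Agent.Lib.MP_c60e08_gt.PdeSpec2

/-!
Joint smoothness of polar graph solutions in the interior.
-/

namespace Pool.Agent.Lib.MP_c60e08_gt.Pde

open Real Set Pool.Agent.Lib.MP_c60e08_gt.Lm

theorem smooth_main : SmoothMainStmt := by
  intro h T y hy
  rw [contDiffOn_infty]
  intro n
  exact (h T y hy).1 n 0 0

end Pool.Agent.Lib.MP_c60e08_gt.Pde
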