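import Pool.Agent.Lib.MP_c60e08_gt.PdeSpec1

/-! Stability of polar solutions in a smooth family of data. -/

namespace Pool.Agent.Lib.MP_c60e08_gt.Pde

open Real Set Pool.Agent.Lib.MP_c60e08_gt.Lm

private lemma stab_exp {u v B : ℝ} (hu : u ≤ B) (hv : v ≤ B) :
    |exp u - exp v| ≤ exp B * |u - v| := by
  wlog huv : u ≤ v generalizing u v
  · rw [abs_sub_comm, abs_sub_comm u v]
    exact this hv hu (le_of_not_ge huv)
  · rw [abs_of_nonpos (by linarith [exp_le_exp.mpr huv]), abs_of_nonpos (by linarith)]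
    have h1 : exp u = exp v * exp (u - v) := by rw [← exp_add]; congr 1; ring
    have h2 : u - v + 1 ≤ exp (u - v) := add_one_le_exp _
    have h3 : exp v ≤ exp B := exp_le_exp.mpr hv
    have h4 : 0 < exp v := exp_pos v
    nlinarith [mul_nonneg h4.le (sub_nonneg.mpr h2),
      mul_nonneg (sub_nonneg.mpr h3) (sub_nonneg.mpr huv)]

private lemma stab_uu {M p y z : ℝ} (hy : y ≤ M) (hz : z ≤ M) :
    |uu p z - uu p y| ≤ (2 * exp (2 * M) + 2 * exp M) * |z - y| := by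
  have h1 : |exp (2 * z) - exp (2 * y)| ≤ exp (2 * M) * |2 * z - 2 * y| :=
    stab_exp (by linarith) (by linarith)
  have h2 : |exp z - exp y| ≤ exp M * |z - y| := stab_exp hz hy
  have h3 : |2 * z - 2 * y| = 2 * |z - y| := by
    rw [← mul_sub, abs_mul, abs_two]
  have h4 : uu p z - uu p y = (exp (2 * z) - exp (2 * y)) - 2 * cos p * (exp z - exp y) := by
    unfold uu
    ring
  have h5 : |2 * cos p * (exp z - exp y)| ≤ 2 * |exp z - exp y| := by
    rw [abs_mul, abs_mul, abs_two]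
    have := abs_cos_le_one p
    nlinarith [abs_nonneg (exp z - exp y)]
  rw [h4]
  refine (abs_sub _ _).trans ?_
  rw [h3] at h1
  nlinarith [abs_nonneg (z - y)]

theorem stab_main : StabMainStmt := by
  intro hUnif hReg hPolQ hQPol hEven hStab hFam y0 hy0s hper heven l0 T y hy hy00 t0 ht0 η hη
  obtain ⟨ht00, ht0T⟩ := ht0
  set t1 : ℝ := (t0 + T) / 2 with ht1
  have h01 : t0 < t1 := by rw [ht1]; linarith
  have h1T : t1 < T := by rw [ht1]; linarith
  have h1p : 0 < t1 := by linarith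
  obtain ⟨η1', hη1', hη1b⟩ := hPolQ.1 T t1 y hy h1T
  obtain ⟨η1, hη1e⟩ : ∃ η1 : ℝ, η1' = 2 * η1 := ⟨η1' / 2, by ring⟩
  subst hη1e
  have hη1 : 0 < η1 := by linarith
  have hQ : QSol (aE η1) (bE η1) t1 y := hPolQ.2 T t1 η1 y hy h1T hη1
    (fun t ht x => by linarith [hη1b t ht x])
  obtain ⟨M, hM⟩ := (hUnif t1 (y 0) (hQ.cont 0) hQ.per).1
  set C : ℝ := 2 * exp (2 * (M + 1)) + 2 * exp (M + 1) with hC
  have hCp : 0 < C := by positivity
  set η2 : ℝ := min (η / 2) (min 1 (η1 / C)) with hη2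
  have hη2p : 0 < η2 := by
    rw [hη2]
    exact lt_min (by linarith) (lt_min one_pos (by positivity))
  have hη2a : η2 ≤ η / 2 := min_le_left _ _
  have hη2b : η2 ≤ 1 := (min_le_right _ _).trans (min_le_left _ _)
  have hη2c : η2 ≤ η1 / C := (min_le_right _ _).trans (min_le_right _ _)
  obtain ⟨⟨M4, hM4⟩, hfam⟩ := hFam y0 hy0s hper l0
  obtain ⟨K4, hK4⟩ := hStab (aE η1) (bE η1) (hReg η1 hη1).1 t1 y h1p.le hQ M4
  obtain ⟨δ, hδ, hst⟩ := hK4 η2 hη2p
  obtain ⟨δ', hδ', hfam'⟩ := hfam δ hδ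
  refine ⟨min δ' 1, lt_min hδ' one_pos, fun l hl => ?_⟩
  have hl1 : |l - l0| < δ' := lt_of_lt_of_le hl (min_le_left _ _)
  have hl2 : |l - l0| ≤ 1 := (lt_of_lt_of_le hl (min_le_right _ _)).le
  have hsm : ContDiff ℝ (⊤ : ℕ∞) (y0 l) :=
    hy0s.comp (contDiff_const.prodMk contDiff_id : ContDiff ℝ (⊤ : ℕ∞) fun p : ℝ => (l, p))
  obtain ⟨z, hz, hz0, hzc, _⟩ := hst (y0 l) hsm (hper l)
    (fun x => by rw [hy00 x]; exact hfam' l hl1 x) (hM4 l hl2)
  have hev : ∀ t ∈ Icc 0 t1, ∀ x, z 0 t (-x) = z 0 t x :=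
    hEven t1 η1 z hη1 hz (fun x => by rw [hz0, hz0]; exact heven l x)
  have hlow : ∀ t ∈ Icc 0 t1, ∀ x, η1 ≤ uu x (z 0 t x) := by
    intro t ht x
    have h1 := hzc t ht x
    have h2 := hM t ht x
    have h3 : y 0 t x ≤ M + 1 := by linarith [le_abs_self (y 0 t x)]
    have h4 : z 0 t x ≤ M + 1 := by
      linarith [le_abs_self (y 0 t x), le_abs_self (z 0 t x - y 0 t x)]
    have h5 := stab_uu (p := x) h3 h4
    have h6 : C * |z 0 t x - y 0 t x| ≤ η1 := by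
      calc C * |z 0 t x - y 0 t x| ≤ C * (η1 / C) :=
            mul_le_mul_of_nonneg_left (h1.trans hη2c) hCp.le
        _ = η1 := by field_simp
    have h7 := (abs_le.mp (h5.trans h6)).1
    linarith [hη1b t ht x]
  refine ⟨t1, h01, z, hQPol t1 η1 z hη1 hz hlow hev, hz0, fun t ht p => ?_⟩
  have := hzc t ⟨ht.1, ht.2.trans h01.le⟩ p
  linarith

end Pool.Agent.Lib.MP_c60e08_gt.Pde
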