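import Pool.Agent.Lib.MP_c60e08_gt.PdeSpec1

/-!
# One step of the stability argument
-/

set_option autoImplicit false

namespace Pool.Agent.Lib.MP_c60e08_gt.Pde

open Real Set Pool.Agent.Lib.MP_c60e08_gt.Lm

theorem step : Par2Stmt → PerStmt → UnifStmt → InterpStmt → QCompStmt → QCutStmt → QGlueStmt →
    StepStmt := by
  intro hPar hPer hUnif hInt hComp hCut hGlue a b hc T y hT hy
  -- bounds of `y`
  have hbd : ∀ j, ∃ M, ∀ t ∈ Icc 0 T, ∀ x, |y j t x| ≤ M := fun j =>
    (hUnif T (fun t x => y j t x) (hy.cont j) (fun t ht x =>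
      (hPer.1 (fun m => y m t) (fun m x => hy.dx m t ht x)).1 (fun x => hy.per t ht x) j x)).1
  choose Mf hMf using hbd
  set M : ℝ := |Mf 0| + |Mf 1| + |Mf 2| + |Mf 3| + |Mf 4| with hM
  have hM0 : 0 ≤ M := by positivity
  have hyM : ∀ j ≤ 4, ∀ t ∈ Icc 0 T, ∀ x, |y j t x| ≤ M := by
    intro j hj t ht x
    have h1 := (hMf j t ht x).trans (le_abs_self _)
    have p0 := abs_nonneg (Mf 0)
    have p1 := abs_nonneg (Mf 1)
    have p2 := abs_nonneg (Mf 2)
    have p3 := abs_nonneg (Mf 3)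
    have p4 := abs_nonneg (Mf 4)
    interval_cases j <;> linarith
  obtain ⟨τ, hτ, K, hpar⟩ := hPar a b hc (M + 1)
  obtain ⟨L, hL, hcomp⟩ := hComp a b hc (M + 2)
  refine ⟨τ, hτ, fun s hs s' hs' hsτ hSt M4 => ?_⟩
  obtain ⟨K4, hK4⟩ := hSt M4
  refine ⟨max K4 (K K4), fun η hη => ?_⟩
  obtain ⟨δ1, hδ1, hI⟩ := hInt (K4 + M) 1 one_pos
  have hη' : 0 < min δ1 (η * exp (-(L * τ))) := lt_min hδ1 (by positivity)
  obtain ⟨δ, hδ, hst⟩ := hK4 _ hη'
  refine ⟨δ, hδ, fun z0 hz0s hz0p hz0y hz04 => ?_⟩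
  obtain ⟨z, hz, hz0, hzy, hz4⟩ := hst z0 hz0s hz0p hz0y hz04
  have hss : s ∈ Icc 0 s := ⟨hs.1, le_rfl⟩
  -- the bounds at time `s`
  have hzs : ∀ j ≤ 3, ∀ x, |z j s x| ≤ M + 1 := by
    intro j hj x
    have h1 := hI (fun m x => z m s x - y m s x)
      (fun m x => (hz.dx m s hss x).sub (hy.dx m s hs x))
      (fun x => (hzy s hss x).trans (min_le_left _ _))
      (fun x => (abs_sub _ _).trans (add_le_add (hz4 s hss x) (hyM 4 le_rfl s hs x))) j hj x
    have h2 := hyM j (by omega) s hs x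
    have h3 : z j s x = (z j s x - y j s x) + y j s x := by ring
    rw [h3]
    refine (abs_add_le _ _).trans ?_
    linarith
  obtain ⟨_, psm, pit, _⟩ := hPer.1 (fun m => z m s) (fun m x => hz.dx m s hss x)
  obtain ⟨z', hz', hz'0, hz'b, hz'4⟩ := hpar (z 0 s) psm (fun x => hz.per s hss x)
    (fun j hj x => by rw [pit j]; exact hzs j hj x)
  have hz'4' := hz'4 K4 (fun x => by rw [pit 4]; exact hz4 s hss x)
  have hd0 : 0 ≤ s' - s := sub_nonneg.2 hs'.1
  have hz'c : QSol a b (s' - s) z' := (hCut a b τ z' hz').1 (s' - s) (by linarith)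
  have hyc : QSol a b (s' - s) (fun m t x => y m (s + t) x) :=
    (hCut a b (T - s) _ ((hCut a b T y hy).2 s hs)).1 (s' - s) (by linarith [hs'.2])
  -- comparison
  have hcmp : ∀ t ∈ Icc 0 (s' - s), ∀ x, |z' 0 t x - y 0 (s + t) x| ≤
      min δ1 (η * exp (-(L * τ))) * exp (L * t) := by
    refine hcomp (s' - s) _ z' (fun m t x => y m (s + t) x) hz'c hyc hη'.le ?_ ?_ ?_
    · intro j hj t ht x
      have := hz'b j (by omega) t ⟨ht.1, by linarith [ht.2]⟩ x
      linarith
    · intro t ht x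
      have := hyM 0 (by norm_num) (s + t) ⟨by linarith [ht.1, hs.1], by linarith [ht.2, hs'.2]⟩ x
      linarith
    · intro x
      simp only [add_zero]
      rw [hz'0]
      exact hzy s hss x
  have hg : QSol a b s' (glue s z z') := by
    have := hGlue a b s (s' - s) z z' hs.1 hd0 hz hz'c hz'0
    rwa [add_sub_cancel] at this
  have hle : min δ1 (η * exp (-(L * τ))) ≤ η := by
    refine (min_le_right _ _).trans ?_
    have : exp (-(L * τ)) ≤ 1 := by
      rw [exp_le_one_iff]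
      have := mul_nonneg hL hτ.le
      linarith
    nlinarith
  refine ⟨glue s z z', hg, fun x => ?_, fun t ht x => ?_, fun t ht x => ?_⟩
  · unfold glue
    rw [if_pos hs.1]
    exact hz0 x
  · unfold glue
    split_ifs with h
    · exact (hzy t ⟨ht.1, h⟩ x).trans hle
    · have h1 : t - s ∈ Icc 0 (s' - s) := ⟨by linarith [not_le.1 h], by linarith [ht.2]⟩
      have h2 := hcmp (t - s) h1 x
      rw [add_sub_cancel] at h2
      refine h2.trans ?_
      have h3 : exp (L * (t - s)) ≤ exp (L * τ) := by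
        apply exp_le_exp.2
        exact mul_le_mul_of_nonneg_left (by linarith [h1.2]) hL
      calc min δ1 (η * exp (-(L * τ))) * exp (L * (t - s))
          ≤ (η * exp (-(L * τ))) * exp (L * τ) :=
            mul_le_mul (min_le_right _ _) h3 (exp_pos _).le (by positivity)
        _ = η := by rw [mul_assoc, ← exp_add]; simp
  · unfold glue
    split_ifs with h
    · exact (hz4 t ⟨ht.1, h⟩ x).trans (le_max_left _ _)
    · exact (hz'4' (t - s) ⟨by linarith [not_le.1 h], by linarith [ht.2]⟩ x).trans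
        (le_max_right _ _)

end Pool.Agent.Lib.MP_c60e08_gt.Pde
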