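import Pool.Agent.Lib.MP_c60e08_gt.PdeSpec1

/-!
MP_c60e08_gt, module SUP: the maximal time.
-/

namespace Pool.Agent.Lib.MP_c60e08_gt.Pde

open Real Set Filter Topology Pool.Agent.Lib.MP_c60e08_gt.Lm

theorem sup : UniqStmt → SupStmt := by
  intro huniq y0 hex
  let E : Set ℝ := {T : ℝ | 0 < T ∧ T ≤ 1 ∧ ∃ y, PolarSol T y ∧ ∀ p, y 0 0 p = y0 p}
  have hEne : E.Nonempty := by
    obtain ⟨T, hT, y, hy, hy0⟩ := hex
    exact ⟨min T 1, lt_min hT one_pos, min_le_right _ _, y, PolarSol_mono hy (min_le_left _ _), hy0⟩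
  have hEb : BddAbove E := ⟨1, fun T hT => hT.2.1⟩
  have hT0 : 0 < sSup E := by
    obtain ⟨T, hT⟩ := hEne
    exact lt_of_lt_of_le hT.1 (le_csSup hEb hT)
  have hT1 : sSup E ≤ 1 := csSup_le hEne fun T hT => hT.2.1
  have hch : ∀ t : ℝ, ∃ (σ : ℝ) (Y : ℕ → ℝ → ℝ → ℝ), t < sSup E →
      t < σ ∧ PolarSol σ Y ∧ ∀ p, Y 0 0 p = y0 p := by
    intro t
    by_cases ht : t < sSup E
    · obtain ⟨σ, hσ, htσ⟩ := exists_lt_of_lt_csSup hEne ht
      obtain ⟨-, -, Y, hY, hY0⟩ := hσ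
      exact ⟨σ, Y, fun _ => ⟨htσ, hY, hY0⟩⟩
    · exact ⟨0, fun _ _ _ => 0, fun h => absurd h ht⟩
  choose σ Y hY using hch
  have key : ∀ t1 < sSup E, ∀ t, 0 ≤ t → t ≤ t1 → ∀ m x, Y t m t x = Y t1 m t x := by
    intro t1 ht1 t ht0 htt m x
    obtain ⟨h1, h2, h3⟩ := hY t1 ht1
    obtain ⟨h4, h5, h6⟩ := hY t (lt_of_le_of_lt htt ht1)
    exact huniq (σ t) (σ t1) (Y t) (Y t1) h5 h2 (fun p => by rw [h6, h3]) t ht0 h4
      (lt_of_le_of_lt htt h1) m x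
  refine ⟨sSup E, hT0, hT1, ⟨fun m t x => Y t m t x, ?_, ?_⟩, ?_⟩
  · refine ⟨?_, ?_, ?_, ?_, ?_, ?_⟩
    · rintro m ⟨t, x⟩ ⟨ht, -⟩
      have ht' : t ∈ Ico 0 (sSup E) := ht
      have ht1 : (t + sSup E) / 2 < sSup E := by linarith [ht'.2]
      have htt1 : t < (t + sSup E) / 2 := by linarith [ht'.2]
      obtain ⟨h1, h2, h3⟩ := hY _ ht1
      have c0 := h2.cont m (t, x) ⟨⟨ht'.1, htt1.trans h1⟩, mem_univ _⟩
      have c1 : ContinuousWithinAt (fun z : ℝ × ℝ => Y ((t + sSup E) / 2) m z.1 z.2)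
          (Ico 0 ((t + sSup E) / 2) ×ˢ univ) (t, x) :=
        c0.mono (prod_mono (Ico_subset_Ico_right h1.le) subset_rfl)
      have c2 : ContinuousWithinAt (fun z : ℝ × ℝ => Y z.1 m z.1 z.2)
          (Ico 0 ((t + sSup E) / 2) ×ˢ univ) (t, x) := by
        refine c1.congr ?_ ?_
        · rintro ⟨s, q⟩ ⟨hs, -⟩
          exact key _ ht1 s hs.1 hs.2.le m q
        · exact key _ ht1 t ht'.1 htt1.le m x
      refine c2.mono_of_mem_nhdsWithin ?_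
      refine mem_nhdsWithin.2 ⟨{z : ℝ × ℝ | z.1 < (t + sSup E) / 2},
        isOpen_lt continuous_fst continuous_const, htt1, ?_⟩
      rintro ⟨s, q⟩ ⟨hs1, hs2, -⟩
      exact ⟨⟨hs2.1, hs1⟩, mem_univ _⟩
    · intro m t ht p
      obtain ⟨h1, h2, h3⟩ := hY t ht.2
      exact h2.dx m t ⟨ht.1, h1⟩ p
    · intro t ht p
      have ht1 : (t + sSup E) / 2 < sSup E := by linarith [ht.2]
      have htt1 : t < (t + sSup E) / 2 := by linarith [ht.2]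
      obtain ⟨h1, h2, h3⟩ := hY _ ht1
      have d1 := h2.dt t ⟨ht.1, htt1.trans h1⟩ p
      simp only [key _ ht1 t ht.1.le htt1.le]
      refine d1.congr_of_eventuallyEq ?_
      filter_upwards [Ioo_mem_nhds ht.1 htt1] with s hs
      exact key _ ht1 s hs.1.le hs.2.le 0 p
    · intro t ht p
      obtain ⟨h1, h2, h3⟩ := hY t ht.2
      exact h2.per t ⟨ht.1, h1⟩ p
    · intro t ht p
      obtain ⟨h1, h2, h3⟩ := hY t ht.2
      exact h2.even t ⟨ht.1, h1⟩ p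
    · intro t ht p
      obtain ⟨h1, h2, h3⟩ := hY t ht.2
      exact h2.pos t ⟨ht.1, h1⟩ p
  · intro p
    exact (hY 0 hT0).2.2 p
  · intro T' hT' hT'1 ⟨y, hy, hy0⟩
    have : T' ∈ E := ⟨hT0.trans hT', hT'1, y, hy, hy0⟩
    exact absurd (le_csSup hEb this) (not_le.2 hT')

end Pool.Agent.Lib.MP_c60e08_gt.Pde
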