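import Pool.Agent.Lib.MP_c60e08_gt.PdeSpec2

/-!
# MP_c60e08, PDE part 2: time and space derivatives commute
-/

namespace Pool.Agent.Lib.MP_c60e08_gt.Pde

open Real Set Filter Topology MeasureTheory

/-- `d_t d_x = d_x d_t`. -/
theorem swap : SwapStmt := by
  intro T u ux ut utx hut hutx hux hutd hutxd t ht x
  have hsub : ∀ t' ∈ Ioo (0 : ℝ) T, uIcc t t' ⊆ Ioo 0 T := fun t' ht' =>
    ordConnected_Ioo.uIcc_subset ht ht'
  have hcu : ∀ x', ContinuousOn (fun s => ut s x') (Ioo 0 T) := fun x' =>
    hut.comp (f := fun s : ℝ => (s, x')) (by fun_prop) (fun s hs => ⟨hs, mem_univ _⟩)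
  have hcux : ∀ x', ContinuousOn (fun s => utx s x') (Ioo 0 T) := fun x' =>
    hutx.comp (f := fun s : ℝ => (s, x')) (by fun_prop) (fun s hs => ⟨hs, mem_univ _⟩)
  have key1 : ∀ t' ∈ Ioo (0 : ℝ) T, ∀ x', ∫ s in t..t', ut s x' = u t' x' - u t x' := by
    intro t' ht' x'
    exact intervalIntegral.integral_eq_sub_of_hasDerivAt
      (fun s hs => hutd s (hsub t' ht' hs) x')
      (((hcu x').mono (hsub t' ht')).intervalIntegrable)
  have key2 : ∀ t' ∈ Ioo (0 : ℝ) T,
      HasDerivAt (fun x' => ∫ s in t..t', ut s x') (∫ s in t..t', utx s x) x := by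
    intro t' ht'
    have hcomp : IsCompact (uIcc t t' ×ˢ Icc (x - 1) (x + 1)) := isCompact_uIcc.prod isCompact_Icc
    obtain ⟨M, hM⟩ := hcomp.exists_bound_of_continuousOn
      (f := fun z : ℝ × ℝ => utx z.1 z.2)
      (hutx.mono (prod_mono (hsub t' ht') (subset_univ _)))
    have hmeas : ∀ g : ℝ → ℝ, ContinuousOn g (Ioo 0 T) →
        AEStronglyMeasurable g (volume.restrict (uIoc t t')) := by
      intro g hg
      exact (hg.mono (uIoc_subset_uIcc.trans (hsub t' ht'))).aestronglyMeasurable
        measurableSet_uIoc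
    have h := intervalIntegral.hasDerivAt_integral_of_dominated_loc_of_deriv_le
      (μ := volume) (a := t) (b := t') (bound := fun _ => M) (F := fun x' s => ut s x')
      (F' := fun x' s => utx s x') (x₀ := x) (s := Icc (x - 1) (x + 1))
      (Icc_mem_nhds (by linarith) (by linarith))
      (Eventually.of_forall fun x' => hmeas _ (hcu x'))
      (((hcu x).mono (hsub t' ht')).intervalIntegrable)
      (hmeas _ (hcux x))
      (Eventually.of_forall fun s hs x' hx' => hM (s, x') ⟨uIoc_subset_uIcc hs, hx'⟩)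
      intervalIntegrable_const
      (Eventually.of_forall fun s hs x' _ =>
        hutxd s (hsub t' ht' (uIoc_subset_uIcc hs)) x')
    exact h.2
  have key3 : ∀ t' ∈ Ioo (0 : ℝ) T, ux t' x = ux t x + ∫ s in t..t', utx s x := by
    intro t' ht'
    have h1 : HasDerivAt (fun x' => u t' x' - u t x') (ux t' x - ux t x) x :=
      (hux t' ht' x).sub (hux t ht x)
    have h2 : (fun x' => ∫ s in t..t', ut s x') = fun x' => u t' x' - u t x' := by
      funext x'
      exact key1 t' ht' x'
    have h3 := key2 t' ht'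
    rw [h2] at h3
    have h4 := h1.unique h3
    linarith
  have hint : HasDerivAt (fun t' => ∫ s in t..t', utx s x) (utx t x) t :=
    intervalIntegral.integral_hasDerivAt_right (IntervalIntegrable.refl)
      ((hcux x).stronglyMeasurableAtFilter isOpen_Ioo t ht)
      ((hcux x).continuousAt (Ioo_mem_nhds ht.1 ht.2))
  have h5 : HasDerivAt (fun t' => ux t x + ∫ s in t..t', utx s x) (utx t x) t :=
    hint.const_add _
  refine h5.congr_of_eventuallyEq ?_
  filter_upwards [Ioo_mem_nhds ht.1 ht.2] with t' ht'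
  exact key3 t' ht'

end Pool.Agent.Lib.MP_c60e08_gt.Pde
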