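import Pool.Agent.Lib.MP_c60e08_gt.PdeSpec2

/-!
MP_c60e08_gt, PDE part 2, module TD: all `x`-derivatives are differentiable in time.
-/

namespace Pool.Agent.Lib.MP_c60e08_gt.Pde

open Real Set Pool.Agent.Lib.MP_c60e08_gt.Lm

namespace TD

lemma xs_y (h1 : XsAlgStmt) {a b : ℝ → ℝ → ℝ → ℝ} {T : ℝ} {y : ℕ → ℝ → ℝ → ℝ}
    (hy : QSol a b T y) (k : ℕ) : ∀ m, XS (Ioo 0 T) 0 k (y m) := by
  have hc : ∀ m, ContDiffOn ℝ ((0 : ℕ) : WithTop ℕ∞) (fun z : ℝ × ℝ => y m z.1 z.2)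
      (Ioo 0 T ×ˢ univ) := by
    intro m
    rw [Nat.cast_zero, contDiffOn_zero]
    exact (hy.cont m).mono (prod_mono Ioo_subset_Icc_self (subset_refl _))
  induction k with
  | zero => intro m; exact hc m
  | succ k ih =>
    intro m
    exact (h1 (Ioo 0 T) 0).2.2.1 k (y m) (y (m + 1)) (hc m)
      (fun t ht x => hy.dx m t (Ioo_subset_Icc_self ht) x) (ih (m + 1))

lemma xs_rhs (h1 : XsAlgStmt) (h2 : XsCompStmt) {a b : ℝ → ℝ → ℝ → ℝ} (hab : Coef a b) {T : ℝ}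
    {y : ℕ → ℝ → ℝ → ℝ} (hy : QSol a b T y) (k : ℕ) : XS (Ioo 0 T) 0 k (rhsQ a b y) := by
  have ha := h2.1 (Ioo 0 T) 0 k univ (fun z => a z.1 z.2.1 z.2.2) (fun _ x => x) (y 0) (y 1)
    isOpen_univ hab.sa.contDiffOn ((h1 (Ioo 0 T) 0).2.2.2.2.1 k) (xs_y h1 hy k 0)
    (xs_y h1 hy k 1) (fun _ _ _ => mem_univ _)
  have hb := h2.1 (Ioo 0 T) 0 k univ (fun z => b z.1 z.2.1 z.2.2) (fun _ x => x) (y 0) (y 1)
    isOpen_univ hab.sb.contDiffOn ((h1 (Ioo 0 T) 0).2.2.2.2.1 k) (xs_y h1 hy k 0)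
    (xs_y h1 hy k 1) (fun _ _ _ => mem_univ _)
  have hm := (h1 (Ioo 0 T) 0).2.2.2.2.2.2.1 k _ _ ha (xs_y h1 hy k 2)
  exact (h1 (Ioo 0 T) 0).2.2.2.2.2.1 k _ _ hm hb

lemma xs_iter {S : Set ℝ} {F : ℝ → ℝ → ℝ} (hF : ∀ k, XS S 0 k F) (m : ℕ) :
    ∀ k, XS S 0 k (fun t x => iteratedDeriv m (F t) x) := by
  induction m with
  | zero => intro k; simpa using hF k
  | succ m ih =>
    intro k
    have := (ih (k + 1)).2.2
    simpa only [iteratedDeriv_succ] using this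

end TD

theorem td : XsAlgStmt → XsCompStmt → SwapStmt → TDStmt := by
  intro h1 h2 h3 a b hab T y hy
  have hx : ∀ m k, XS (Ioo 0 T) 0 k (fun t x => iteratedDeriv m (rhsQ a b y t) x) :=
    fun m => TD.xs_iter (TD.xs_rhs h1 h2 hab hy) m
  have hcont : ∀ m, ContinuousOn (fun z : ℝ × ℝ => iteratedDeriv m (rhsQ a b y z.1) z.2)
      (Ioo 0 T ×ˢ univ) := by
    intro m
    have := hx m 0
    simp only [XS, Nat.cast_zero, contDiffOn_zero] at this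
    exact this
  have hder : ∀ m, ∀ t ∈ Ioo 0 T, ∀ x, HasDerivAt (fun x => iteratedDeriv m (rhsQ a b y t) x)
      (iteratedDeriv (m + 1) (rhsQ a b y t) x) x := by
    intro m t ht x
    have := ((hx m 1).2.1 t ht x).hasDerivAt
    rwa [iteratedDeriv_succ]
  intro m
  induction m with
  | zero =>
    intro t ht x
    have := (hy.dt t (Ioo_subset_Icc_self ht) x).hasDerivAt (Icc_mem_nhds ht.1 ht.2)
    simpa [rhsQ] using this
  | succ m ih =>
    exact h3 T (y m) (y (m + 1)) (fun t x => iteratedDeriv m (rhsQ a b y t) x)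
      (fun t x => iteratedDeriv (m + 1) (rhsQ a b y t) x) (hcont m) (hcont (m + 1))
      (fun t ht x => hy.dx m t (Ioo_subset_Icc_self ht) x) ih (hder m)

end Pool.Agent.Lib.MP_c60e08_gt.Pde
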