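import Pool.Agent.Lib.MP_c60e08_gt.PdeSpec1

/-!
Module Unif: continuous periodic functions on a strip.
-/

namespace Pool.Agent.Lib.MP_c60e08_gt.Pde

open Real Set Pool.Agent.Lib.MP_c60e08_gt.Lm

/-- UNIF. -/
theorem unifStmt : UnifStmt := by
  intro T g hg hper
  have hpi : (0 : ℝ) < 2 * π := by positivity
  set S : Set (ℝ × ℝ) := Icc 0 T ×ˢ Icc 0 (2 * π) with hS
  have hSc : IsCompact S := isCompact_Icc.prod isCompact_Icc
  have hgS : ContinuousOn (fun z : ℝ × ℝ => g z.1 z.2) S :=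
    hg.mono (prod_mono_right (subset_univ _))
  have hred : ∀ x : ℝ, ∃ x' ∈ Icc 0 (2 * π), ∀ t ∈ Icc 0 T, g t x = g t x' := by
    intro x
    set n : ℤ := ⌊x / (2 * π)⌋ with hn
    have h1 : (n : ℝ) ≤ x / (2 * π) := Int.floor_le _
    have h2 : x / (2 * π) < n + 1 := Int.lt_floor_add_one _
    rw [le_div_iff₀ hpi] at h1
    rw [div_lt_iff₀ hpi] at h2
    refine ⟨x - n * (2 * π), ⟨by linarith, by linarith⟩, fun t ht => ?_⟩
    have hp : Function.Periodic (g t) (2 * π) := fun y => hper t ht y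
    exact (hp.sub_int_mul_eq n).symm
  refine ⟨?_, ?_, ?_⟩
  · obtain ⟨M, hM⟩ := hSc.exists_bound_of_continuousOn hgS
    refine ⟨M, fun t ht x => ?_⟩
    obtain ⟨x', hx', hxx⟩ := hred x
    rw [hxx t ht]
    exact hM (t, x') ⟨ht, hx'⟩
  · intro ε hε
    have huc := hSc.uniformContinuousOn_of_continuous hgS
    rw [Metric.uniformContinuousOn_iff] at huc
    obtain ⟨δ, hδ, h⟩ := huc ε hε
    refine ⟨δ / 2, by positivity, fun s hs t ht hst x => ?_⟩
    obtain ⟨x', hx', hxx⟩ := hred x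
    rw [hxx t ht, hxx s hs]
    have h1 := h (t, x') ⟨ht, hx'⟩ (s, x') ⟨hs, hx'⟩ (by
      rw [Prod.dist_eq]
      simp only [dist_self]
      rw [Real.dist_eq, max_eq_left (abs_nonneg _)]
      linarith)
    rw [Real.dist_eq] at h1
    exact h1.le
  · intro hpos
    rcases S.eq_empty_or_nonempty with h | h
    · refine ⟨1, one_pos, fun t ht x => ?_⟩
      exfalso
      obtain ⟨x', hx', -⟩ := hred x
      have : (t, x') ∈ S := ⟨ht, hx'⟩
      rw [h] at this
      exact this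
    · obtain ⟨z, hz, hmin⟩ := hSc.exists_isMinOn h hgS
      refine ⟨g z.1 z.2, hpos z.1 hz.1 z.2, fun t ht x => ?_⟩
      obtain ⟨x', hx', hxx⟩ := hred x
      rw [hxx t ht]
      exact hmin (show (t, x') ∈ S from ⟨ht, hx'⟩)

end Pool.Agent.Lib.MP_c60e08_gt.Pde
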