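import Pool.Agent.Lib.MP_c60e08_gt.PdeSpec1

/-!
MP_c60e08_gt, module UNIQ: uniqueness of polar solutions.
-/

namespace Pool.Agent.Lib.MP_c60e08_gt.Pde

open Real Set Pool.Agent.Lib.MP_c60e08_gt.Lm

theorem uniq_main : UniqMainStmt := by
  intro hreg hpolq hquniq T T' y y' hy hy' h0 t ht0 htT htT' m p
  obtain ⟨η, hη, hηy⟩ := hpolq.1 T t y hy htT
  obtain ⟨η', hη', hηy'⟩ := hpolq.1 T' t y' hy' htT'
  have hmin : 0 < min η η' := lt_min hη hη'
  have h1 := hpolq.2 T t (min η η') y hy htT hmin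
    (fun s hs x => (min_le_left _ _).trans (hηy s hs x))
  have h2 := hpolq.2 T' t (min η η') y' hy' htT' hmin
    (fun s hs x => (min_le_right _ _).trans (hηy' s hs x))
  exact hquniq _ _ (hreg _ hmin).1 t y y' h1 h2 h0 t ⟨ht0, le_rfl⟩ m p

end Pool.Agent.Lib.MP_c60e08_gt.Pde
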