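import Pool.Agent.Lib.MP_c60e08_gt.PdeSpec2

/-!
MP_c60e08_gt, PDE part, module XsAlg: closure properties of the class `XS`.
-/

namespace Pool.Agent.Lib.MP_c60e08_gt.Pde

open Real Set Pool.Agent.Lib.MP_c60e08_gt.Lm

namespace XsAlg

variable {S : Set ℝ} {n : ℕ}

theorem toC : ∀ (k : ℕ) (F : ℝ → ℝ → ℝ), XS S n k F →
    ContDiffOn ℝ n (fun z : ℝ × ℝ => F z.1 z.2) (S ×ˢ univ)
  | 0, _, h => h
  | _ + 1, _, h => h.1

theorem mono : ∀ (k : ℕ) (F : ℝ → ℝ → ℝ), XS S n (k + 1) F → XS S n k F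
  | 0, _, h => h.1
  | k + 1, _, h => ⟨h.1, h.2.1, mono k _ h.2.2⟩

theorem eqOn {F G : ℝ → ℝ → ℝ} (h : ∀ t ∈ S, ∀ x, F t x = G t x) :
    ContDiffOn ℝ n (fun z : ℝ × ℝ => F z.1 z.2) (S ×ˢ univ) →
    ContDiffOn ℝ n (fun z : ℝ × ℝ => G z.1 z.2) (S ×ˢ univ) := by
  intro hF
  exact hF.congr fun z hz => (h z.1 hz.1 z.2).symm

theorem congr' : ∀ (k : ℕ) (F G : ℝ → ℝ → ℝ), (∀ t ∈ S, ∀ x, F t x = G t x) →
    XS S n k F → XS S n k G
  | 0, _, _, h, hF => eqOn h hF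
  | k + 1, F, G, h, hF => by
    have h' : ∀ t ∈ S, F t = G t := fun t ht => funext (h t ht)
    refine ⟨eqOn h hF.1, fun t ht x => ?_, congr' k _ _ (fun t ht x => ?_) hF.2.2⟩
    · rw [← h' t ht]
      exact hF.2.1 t ht x
    · rw [h' t ht]

theorem der (k : ℕ) (F F' : ℝ → ℝ → ℝ)
    (hc : ContDiffOn ℝ n (fun z : ℝ × ℝ => F z.1 z.2) (S ×ˢ univ))
    (h : ∀ t ∈ S, ∀ x, HasDerivAt (F t) (F' t x) x) (hF' : XS S n k F') :
    XS S n (k + 1) F :=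
  ⟨hc, fun t ht x => (h t ht x).differentiableAt,
    congr' k _ _ (fun t ht x => (h t ht x).deriv.symm) hF'⟩

theorem const' : ∀ (k : ℕ) (c : ℝ), XS S n k (fun _ _ => c)
  | 0, _ => contDiffOn_const
  | k + 1, c => der k _ (fun _ _ => 0) contDiffOn_const (fun _ _ x => hasDerivAt_const x c)
      (const' k 0)

theorem var' : ∀ k : ℕ, XS S n k (fun _ x => x)
  | 0 => contDiff_snd.contDiffOn
  | k + 1 => der k _ (fun _ _ => 1) contDiff_snd.contDiffOn (fun _ _ x => hasDerivAt_id x)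
      (const' k 1)

theorem add' : ∀ (k : ℕ) (F G : ℝ → ℝ → ℝ), XS S n k F → XS S n k G →
    XS S n k (fun t x => F t x + G t x)
  | 0, _, _, hF, hG => hF.add hG
  | k + 1, F, G, hF, hG => by
    refine der k _ (fun t x => deriv (F t) x + deriv (G t) x) (hF.1.add hG.1) ?_
      (add' k _ _ hF.2.2 hG.2.2)
    intro t ht x
    exact (hF.2.1 t ht x).hasDerivAt.add (hG.2.1 t ht x).hasDerivAt

theorem mul' : ∀ (k : ℕ) (F G : ℝ → ℝ → ℝ), XS S n k F → XS S n k G →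
    XS S n k (fun t x => F t x * G t x)
  | 0, _, _, hF, hG => hF.mul hG
  | k + 1, F, G, hF, hG => by
    refine der k _ (fun t x => deriv (F t) x * G t x + F t x * deriv (G t) x) (hF.1.mul hG.1) ?_
      (add' k _ _ (mul' k _ _ hF.2.2 (mono k _ hG)) (mul' k _ _ (mono k _ hF) hG.2.2))
    intro t ht x
    exact (hF.2.1 t ht x).hasDerivAt.mul (hG.2.1 t ht x).hasDerivAt

theorem neg' (k : ℕ) (F : ℝ → ℝ → ℝ) (hF : XS S n k F) : XS S n k (fun t x => -F t x) :=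
  congr' k _ _ (fun t _ x => by ring) (mul' k _ _ (const' k (-1)) hF)

end XsAlg

theorem xsAlg : XsAlgStmt := fun _ _ =>
  ⟨XsAlg.mono, XsAlg.congr', XsAlg.der, XsAlg.const', XsAlg.var', XsAlg.add', XsAlg.mul',
    XsAlg.neg'⟩

end Pool.Agent.Lib.MP_c60e08_gt.Pde
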