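import Pool.Agent.Lib.MP_c60e08_gt.PdeSpec2

/-!
# MP_c60e08_gt, PDE part: composition in the class `XS` (statement `XsCompStmt`)
-/

namespace Pool.Agent.Lib.MP_c60e08_gt.Pde

open Real Set Pool.Agent.Lib.MP_c60e08_gt.Lm

namespace XsComp

theorem comp_zero (S : Set ℝ) (n : ℕ) (U : Set (ℝ × ℝ × ℝ)) (A : ℝ × ℝ × ℝ → ℝ)
    (F G H : ℝ → ℝ → ℝ) (hA : ContDiffOn ℝ (⊤ : ℕ∞) A U)
    (hF : ContDiffOn ℝ n (fun z : ℝ × ℝ => F z.1 z.2) (S ×ˢ univ))
    (hG : ContDiffOn ℝ n (fun z : ℝ × ℝ => G z.1 z.2) (S ×ˢ univ))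
    (hH : ContDiffOn ℝ n (fun z : ℝ × ℝ => H z.1 z.2) (S ×ˢ univ))
    (hm : ∀ t ∈ S, ∀ x, (F t x, G t x, H t x) ∈ U) :
    ContDiffOn ℝ n (fun z : ℝ × ℝ => A (F z.1 z.2, G z.1 z.2, H z.1 z.2)) (S ×ˢ univ) := by
  have h1 : ContDiffOn ℝ n A U := hA.of_le (by exact_mod_cast le_top)
  have h2 : ContDiffOn ℝ n (fun z : ℝ × ℝ => (F z.1 z.2, G z.1 z.2, H z.1 z.2)) (S ×ˢ univ) :=
    hF.prodMk (hG.prodMk hH)
  exact h1.comp h2 (fun z hz => hm z.1 hz.1 z.2)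

theorem xs_base {S : Set ℝ} {n k : ℕ} {F : ℝ → ℝ → ℝ} (h : XS S n k F) :
    ContDiffOn ℝ n (fun z : ℝ × ℝ => F z.1 z.2) (S ×ˢ univ) := by
  cases k with
  | zero => exact h
  | succ k => exact h.1

theorem comp_three (halg : XsAlgStmt) (S : Set ℝ) (n k : ℕ) (U : Set (ℝ × ℝ × ℝ))
    (hU : IsOpen U) : ∀ (A : ℝ × ℝ × ℝ → ℝ) (F G H : ℝ → ℝ → ℝ),
    ContDiffOn ℝ (⊤ : ℕ∞) A U → XS S n k F → XS S n k G → XS S n k H →
    (∀ t ∈ S, ∀ x, (F t x, G t x, H t x) ∈ U) →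
    XS S n k (fun t x => A (F t x, G t x, H t x)) := by
  obtain ⟨hlow, hcongr, hder, hconst, hid, hadd, hmul, hneg⟩ := halg S n
  induction k with
  | zero =>
    intro A F G H hA hF hG hH hm
    exact comp_zero S n U A F G H hA hF hG hH hm
  | succ k ih =>
    intro A F G H hA hF hG hH hm
    have hD : ∀ e : ℝ × ℝ × ℝ, ContDiffOn ℝ (⊤ : ℕ∞) (fun q => fderiv ℝ A q e) U := by
      intro e
      have h1 : ContDiffOn ℝ (⊤ : ℕ∞) (fderiv ℝ A) U :=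
        hA.fderiv_of_isOpen hU (by simp)
      exact h1.clm_apply contDiffOn_const
    have hDx : ∀ e : ℝ × ℝ × ℝ,
        XS S n k (fun t x => fderiv ℝ A (F t x, G t x, H t x) e) := by
      intro e
      exact ih (fun q => fderiv ℝ A q e) F G H (hD e) (hlow k F hF) (hlow k G hG) (hlow k H hH) hm
    refine hder k _ (fun t x => (fderiv ℝ A (F t x, G t x, H t x) (1, 0, 0) * deriv (F t) x
        + fderiv ℝ A (F t x, G t x, H t x) (0, 1, 0) * deriv (G t) x)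
        + fderiv ℝ A (F t x, G t x, H t x) (0, 0, 1) * deriv (H t) x)
      (comp_zero S n U A F G H hA hF.1 hG.1 hH.1 hm) ?_ ?_
    · intro t ht x
      have hq := hm t ht x
      have hAd : HasFDerivAt A (fderiv ℝ A (F t x, G t x, H t x)) (F t x, G t x, H t x) := by
        have h1 : ContDiffAt ℝ (⊤ : ℕ∞) A (F t x, G t x, H t x) :=
          hA.contDiffAt (hU.mem_nhds hq)
        exact (h1.differentiableAt (by simp)).hasFDerivAt
      have hF1 := (hF.2.1 t ht x).hasDerivAt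
      have hG1 := (hG.2.1 t ht x).hasDerivAt
      have hH1 := (hH.2.1 t ht x).hasDerivAt
      have h2 := hAd.comp_hasDerivAt x (hF1.prodMk (hG1.prodMk hH1))
      have h3 : ((deriv (F t) x, deriv (G t) x, deriv (H t) x) : ℝ × ℝ × ℝ)
          = (deriv (F t) x • ((1, 0, 0) : ℝ × ℝ × ℝ) + deriv (G t) x • ((0, 1, 0) : ℝ × ℝ × ℝ))
            + deriv (H t) x • ((0, 0, 1) : ℝ × ℝ × ℝ) := by
        simp
      rw [h3, map_add, map_add, map_smul, map_smul, map_smul] at h2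
      convert h2 using 1
      all_goals first | rfl | (simp only [smul_eq_mul]; ring)
    · exact hadd k _ _ (hadd k _ _ (hmul k _ _ (hDx _) hF.2.2) (hmul k _ _ (hDx _) hG.2.2))
        (hmul k _ _ (hDx _) hH.2.2)

end XsComp

theorem xsComp : XsAlgStmt → XsCompStmt := by
  intro halg
  refine ⟨fun S n k U A F G H hU hA hF hG hH hm =>
    XsComp.comp_three halg S n k U hU A F G H hA hF hG hH hm, ?_⟩
  intro S n k U A F hU hA hF hm
  have h0 := (halg S n).2.2.2.1 k 0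
  have hU' : IsOpen ((Prod.fst : ℝ × ℝ × ℝ → ℝ) ⁻¹' U) := hU.preimage continuous_fst
  have hA' : ContDiffOn ℝ (⊤ : ℕ∞) (fun q : ℝ × ℝ × ℝ => A q.1) (Prod.fst ⁻¹' U) :=
    hA.comp contDiffOn_fst (fun q hq => hq)
  exact XsComp.comp_three halg S n k _ hU' (fun q => A q.1) F (fun _ _ => 0) (fun _ _ => 0)
    hA' hF h0 h0 (fun t ht x => hm t ht x)

end Pool.Agent.Lib.MP_c60e08_gt.Pde
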